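import Pool.Agent.BisTh.Cnt

/-!
# The algorithm and its value
-/

set_option autoImplicit false

namespace Pool.Agent.BisTh

/-- A state: left vertices (rows), right vertices (indices). -/
abbrev St : Type := List (List Bool) × List ℕ

/-- A unary number. -/
abbrev Un : Type := List Bool

/-- The value of a list of exponents. -/
def tot (E : List Un) : ℕ := (E.map fun e => 2 ^ e.length).sum

theorem tot_nil : tot [] = 0 := rfl

theorem tot_append (E F : List Un) : tot (E ++ F) = tot E + tot F := by
  simp [tot]

theorem tot_cons (e : Un) (E : List Un) : tot (e :: E) = 2 ^ e.length + tot E := by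
  simp [tot]

/-- A list as a unary number. -/
def un {α : Type} (l : List α) : Un := l.map fun _ => true

theorem un_length {α : Type} (l : List α) : (un l).length = l.length := by simp [un]

/-- One expansion on the left. -/
def stepL (p : List Un × List St) : List Un × List St :=
  (p.1 ++ p.2.map (fun s => un s.2), p.2.flatMap fun s => childL s.1 s.2)

/-- One expansion on the right. -/
def stepR (p : List Un × List St) : List Un × List St :=
  (p.1 ++ p.2.map (fun s => un s.1), p.2.flatMap fun s => childR s.1 s.2)

/-- The exact number represented by a pair of exponents and states. -/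
def exact (p : List Un × List St) : ℕ := tot p.1 + (p.2.map scnt).sum

theorem sum_flatMap_scnt (l : List St) (f : St → List St) :
    ((l.flatMap f).map scnt).sum = (l.map fun s => ((f s).map scnt).sum).sum := by
  induction l with
  | nil => rfl
  | cons s l ih => rw [List.flatMap_cons, List.map_append, List.sum_append, ih]; simp

theorem tot_map (l : List St) (f : St → Un) :
    tot (l.map f) = (l.map fun s => 2 ^ (f s).length).sum := by
  simp [tot, List.map_map, Function.comp_def]

theorem sum_map_add' {α : Type} (l : List α) (f g : α → ℕ) :
    (l.map fun s => f s + g s).sum = (l.map f).sum + (l.map g).sum := by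
  induction l with
  | nil => rfl
  | cons s l ih => simp only [List.map_cons, List.sum_cons, ih]; ring

theorem exact_stepL (p : List Un × List St) : exact (stepL p) = exact p := by
  unfold exact stepL
  simp only
  rw [tot_append, tot_map, sum_flatMap_scnt, add_assoc, ← sum_map_add']
  congr 2
  refine List.map_congr_left fun s _ => ?_
  rw [un_length, scnt, cnt_childL]

theorem exact_stepR (p : List Un × List St) : exact (stepR p) = exact p := by
  unfold exact stepR
  simp only
  rw [tot_append, tot_map, sum_flatMap_scnt, add_assoc, ← sum_map_add']
  congr 2
  refine List.map_congr_left fun s _ => ?_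
  rw [un_length, scnt, cnt_childR]

/-! ### Branching as a fold over a list of states -/

/-- A branching state: exponent, right vertices, budget. -/
abbrev BSt : Type := Un × List ℕ × Un

/-- One step of the branching. -/
def bstep (u : List Bool) (s : BSt) : List BSt :=
  cond (s.2.1.all (nadj u)) [(true :: s.1, s.2.1, s.2.2)]
    (cond s.2.2.isEmpty []
      [(s.1, s.2.1, s.2.2.tail), (s.1, s.2.1.filter (nadj u), s.2.2.tail)])

/-- The branching: all states after the left vertices `X`. -/
def bfold (X : List (List Bool)) (L : List BSt) : List BSt :=
  X.foldl (fun st u => st.flatMap (bstep u)) L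

/-- The exponents of the branching with budget `d` from the state `s`. -/
def leafExp (d : Un) (s : St) : List Un :=
  (bfold s.1 [([], s.2, d)]).map fun q => q.1 ++ un q.2.1

/-- Value of a list of branching states with left vertices `X`. -/
def bval (X : List (List Bool)) (L : List BSt) : ℕ :=
  (L.map fun q => 2 ^ q.1.length * apx q.2.2.length X q.2.1).sum

theorem bval_append (X : List (List Bool)) (L L' : List BSt) :
    bval X (L ++ L') = bval X L + bval X L' := by simp [bval]

theorem bval_bstep (u : List Bool) (X : List (List Bool)) (s : BSt) :
    bval X (bstep u s) = 2 ^ s.1.length * apx s.2.2.length (u :: X) s.2.1 := by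
  obtain ⟨w, Y, d⟩ := s
  unfold bstep
  simp only
  rw [apx.eq_def]
  by_cases h : Y.all (nadj u) = true
  · simp only [h, cond_true, bval, List.map_cons, List.map_nil, List.sum_cons, List.sum_nil,
      List.length_cons, if_true]
    ring
  · rw [Bool.not_eq_true] at h
    cases d with
    | nil => simp [h, bval]
    | cons c d =>
      simp only [h, cond_false, List.isEmpty_cons, bval, List.map_cons, List.map_nil,
        List.sum_cons, List.sum_nil, List.tail_cons, List.length_cons, Bool.false_eq_true,
        if_false]
      ring

theorem bval_flatMap (u : List Bool) (X : List (List Bool)) (L : List BSt) :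
    bval X (L.flatMap (bstep u)) = bval (u :: X) L := by
  induction L with
  | nil => rfl
  | cons s L ih =>
    rw [List.flatMap_cons, bval_append, ih, bval_bstep]
    simp [bval]

theorem bval_bfold (X : List (List Bool)) : ∀ L : List BSt, bval [] (bfold X L) = bval X L := by
  induction X with
  | nil => intro L; rfl
  | cons u X ih =>
    intro L
    unfold bfold at ih ⊢
    rw [List.foldl_cons, ih, bval_flatMap]

theorem tot_leafExp (d : Un) (s : St) : tot (leafExp d s) = apx d.length s.1 s.2 := by
  have h1 := bval_bfold s.1 [([], s.2, d)]
  unfold leafExp
  have h2 : tot ((bfold s.1 [([], s.2, d)]).map fun q => q.1 ++ un q.2.1) =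
      bval [] (bfold s.1 [([], s.2, d)]) := by
    unfold tot bval
    rw [List.map_map]
    congr 1
    refine List.map_congr_left fun q _ => ?_
    simp only [Function.comp_def, List.length_append, un_length, apx, pow_add]
  rw [h2, h1]
  simp [bval]

/-! ### The algorithm -/

/-- Iterated concatenation. -/
def rep : ℕ → Un → Un
  | 0, _ => []
  | n + 1, l => l ++ rep n l

theorem rep_length (n : ℕ) (l : Un) : (rep n l).length = n * l.length := by
  induction n with
  | zero => simp [rep]
  | succ n ih => rw [rep, List.length_append, ih]; ring

/-- The states after the expansions. -/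
def phase1 (r : ℕ) (B : Un) (X : List (List Bool)) : List Un × List St :=
  stepR^[r] (stepL^[r] ([], [(X, List.range B.length)]))

/-- The budget: `3 * bits t + 3 * (2 * r + C) * bits (a + b + 1)`. -/
def budget (r C : ℕ) (T B : Un) (X : List (List Bool)) : Un :=
  rep 3 T.length.bits ++ rep (3 * (2 * r + C)) (X.length + B.length + 1).bits

/-- The list of exponents found by the algorithm. -/
def exps (r C : ℕ) (T B : Un) (X : List (List Bool)) : List Un :=
  (phase1 r B X).1 ++ (phase1 r B X).2.flatMap (leafExp (budget r C T B X))

/-- The value of the algorithm. -/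
def alg (r C : ℕ) (T B : Un) (X : List (List Bool)) : ℕ := tot (exps r C T B X)

theorem exact_phase1 (r : ℕ) (B : Un) (X : List (List Bool)) :
    exact (phase1 r B X) = cnt X (List.range B.length) := by
  unfold phase1
  have h1 : ∀ (n : ℕ) (p : List Un × List St), exact (stepR^[n] p) = exact p := by
    intro n
    induction n with
    | zero => intro p; rfl
    | succ n ih => intro p; rw [Function.iterate_succ_apply, ih, exact_stepR]
  have h2 : ∀ (n : ℕ) (p : List Un × List St), exact (stepL^[n] p) = exact p := by
    intro n
    induction n with
    | zero => intro p; rfl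
    | succ n ih => intro p; rw [Function.iterate_succ_apply, ih, exact_stepL]
  rw [h1, h2]
  simp [exact, tot_nil, scnt]

theorem tot_flatMap_leafExp (d : Un) (l : List St) :
    tot (l.flatMap (leafExp d)) = (l.map fun s => apx d.length s.1 s.2).sum := by
  induction l with
  | nil => rfl
  | cons s l ih => rw [List.flatMap_cons, tot_append, ih, tot_leafExp]; simp

theorem alg_le (r C : ℕ) (T B : Un) (X : List (List Bool)) :
    alg r C T B X ≤ cnt X (List.range B.length) := by
  rw [← exact_phase1 r B X]
  unfold alg exps exact
  rw [tot_append, tot_flatMap_leafExp]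
  refine Nat.add_le_add_left (List.sum_le_sum fun s _ => ?_) _
  exact apx_le _ _ _

/-- The error, if all states are small. -/
theorem alg_err (r C : ℕ) (T B : Un) (X : List (List Bool)) (m : ℕ)
    (hm : ∀ s ∈ (phase1 r B X).2, s.1.length + s.2.length ≤ m) :
    4 ^ (budget r C T B X).length * cnt X (List.range B.length) ≤
      4 ^ (budget r C T B X).length * alg r C T B X +
      3 ^ (budget r C T B X).length * (phase1 r B X).2.length * 2 ^ m := by
  rw [← exact_phase1 r B X]
  unfold alg exps exact
  rw [tot_append, tot_flatMap_leafExp]
  set d := (budget r C T B X).length with hd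
  have key : ∀ l : List St, (∀ s ∈ l, s.1.length + s.2.length ≤ m) →
      4 ^ d * (l.map scnt).sum ≤ 4 ^ d * (l.map fun s => apx d s.1 s.2).sum +
        3 ^ d * l.length * 2 ^ m := by
    intro l
    induction l with
    | nil => intro _; simp
    | cons s l ih =>
      intro h
      have h1 := ih fun s' hs' => h s' (List.mem_cons_of_mem _ hs')
      have h2 := apx_err s.1 d s.2
      have h3 : 2 ^ (s.1.length + s.2.length) ≤ 2 ^ m :=
        Nat.pow_le_pow_right (by norm_num) (h s List.mem_cons_self)
      have h4 : 3 ^ d * 2 ^ (s.1.length + s.2.length) ≤ 3 ^ d * 2 ^ m :=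
        Nat.mul_le_mul_left _ h3
      simp only [List.map_cons, List.sum_cons, List.length_cons]
      unfold scnt at h1 ⊢
      nlinarith
  have h1 := key _ hm
  nlinarith

end Pool.Agent.BisTh
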