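import Pool.Agent.PT.Num
import Pool.Agent.BisTh.Algo

/-!
# The algorithm runs in polynomial time
-/

set_option autoImplicit false

namespace Pool.Agent.BisTh

open Pool.Agent.PT

/-! ### Sizes -/

theorem sz_filter_le {α : Type} [Dat α] (p : α → Bool) (l : List α) : sz (l.filter p) ≤ sz l := by
  induction l with
  | nil => simp
  | cons a l ih =>
    by_cases h : p a = true
    · rw [List.filter_cons_of_pos h, sz_cons, sz_cons]; omega
    · rw [List.filter_cons_of_neg h, sz_cons]; omega

theorem sz_tail_le {α : Type} [Dat α] (l : List α) : sz l.tail ≤ sz l := by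
  cases l with
  | nil => simp
  | cons a l => rw [List.tail_cons, sz_cons]; omega

/-! ### Children as folds -/

theorem childL_foldl (Y : List ℕ) : ∀ (X : List (List Bool)) (o : List St),
    X.foldl (fun (s : List (List Bool) × List St) u =>
      (s.1.tail, (s.1.tail, Y.filter (nadj u)) :: s.2)) (X, o) =
      ([], (childL X Y).reverse ++ o)
  | [], o => rfl
  | u :: X, o => by
    rw [List.foldl_cons]
    show X.foldl _ (X, (X, Y.filter (nadj u)) :: o) = _
    rw [childL_foldl Y X, childL]
    simp

theorem childR_foldl : ∀ (Y : List ℕ) (X : List (List Bool)) (o : List St),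
    Y.foldl (fun (s : List ℕ × List St) j =>
      (s.1.tail, (X.filter (fun u => nadj u j), s.1.tail) :: s.2)) (Y, o) =
      ([], (childR X Y).reverse ++ o)
  | [], X, o => rfl
  | j :: Y, X, o => by
    rw [List.foldl_cons]
    show Y.foldl _ (Y, (X.filter (fun u => nadj u j), Y) :: o) = _
    rw [childR_foldl Y X, childR]
    simp

/-- Prefix of the left fold. -/
theorem childL_pre (Y : List ℕ) : ∀ (l X : List (List Bool)) (o : List St),
    sz (l.foldl (fun (s : List (List Bool) × List St) u =>
      (s.1.tail, (s.1.tail, Y.filter (nadj u)) :: s.2)) (X, o)) ≤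
      sz X + sz o + 1 + l.length * (sz X + sz Y + 2)
  | [], X, o => by simp [sz_pair]
  | u :: l, X, o => by
    rw [List.foldl_cons]
    dsimp only
    have h1 := childL_pre Y l X.tail ((X.tail, Y.filter (nadj u)) :: o)
    have h2 := sz_tail_le X
    have h3 := sz_filter_le (nadj u) Y
    have h4 : sz ((X.tail, Y.filter (nadj u)) :: o) ≤ sz o + (sz X + sz Y + 2) := by
      rw [sz_cons, sz_pair]; omega
    have h5 : l.length * (sz X.tail + sz Y + 2) ≤ l.length * (sz X + sz Y + 2) :=
      Nat.mul_le_mul_left _ (by omega)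
    rw [List.length_cons, Nat.add_mul, Nat.one_mul]
    omega

theorem childR_pre (X : List (List Bool)) : ∀ (l Y : List ℕ) (o : List St),
    sz (l.foldl (fun (s : List ℕ × List St) j =>
      (s.1.tail, (X.filter (fun u => nadj u j), s.1.tail) :: s.2)) (Y, o)) ≤
      sz Y + sz o + 1 + l.length * (sz X + sz Y + 2)
  | [], Y, o => by simp [sz_pair]
  | j :: l, Y, o => by
    rw [List.foldl_cons]
    dsimp only
    have h1 := childR_pre X l Y.tail ((X.filter (fun u => nadj u j), Y.tail) :: o)
    have h2 := sz_tail_le Y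
    have h3 := sz_filter_le (fun u => nadj u j) X
    have h4 : sz ((X.filter (fun u => nadj u j), Y.tail) :: o) ≤ sz o + (sz X + sz Y + 2) := by
      rw [sz_cons, sz_pair]; omega
    have h5 : l.length * (sz X + sz Y.tail + 2) ≤ l.length * (sz X + sz Y + 2) :=
      Nat.mul_le_mul_left _ (by omega)
    rw [List.length_cons, Nat.add_mul, Nat.one_mul]
    omega

/-! ### Sizes of the branching -/

/-- The potential of a list of branching states. -/
def pot (L : List BSt) : ℕ := (L.map fun q => 2 ^ q.2.2.length).sum

theorem pot_append (L L' : List BSt) : pot (L ++ L') = pot L + pot L' := by simp [pot]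

theorem pot_bstep (u : List Bool) (s : BSt) : pot (bstep u s) ≤ 2 ^ s.2.2.length := by
  obtain ⟨w, Y, d⟩ := s
  unfold bstep
  simp only
  cases h : Y.all (nadj u) with
  | true => simp [pot]
  | false =>
    cases d with
    | nil => simp [pot]
    | cons c d => simp [pot, pow_succ]; omega

theorem pot_flatMap (u : List Bool) (L : List BSt) : pot (L.flatMap (bstep u)) ≤ pot L := by
  induction L with
  | nil => simp
  | cons s L ih =>
    rw [List.flatMap_cons, pot_append]
    have h1 := pot_bstep u s
    have h2 : pot (s :: L) = 2 ^ s.2.2.length + pot L := by simp [pot]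
    omega

theorem pot_bfold (X : List (List Bool)) : ∀ L : List BSt, pot (bfold X L) ≤ pot L := by
  induction X with
  | nil => intro L; exact le_rfl
  | cons u X ih =>
    intro L
    have h1 := ih (L.flatMap (bstep u))
    have h2 := pot_flatMap u L
    unfold bfold at h1 ⊢
    rw [List.foldl_cons]
    omega

theorem length_le_pot (L : List BSt) : L.length ≤ pot L := by
  induction L with
  | nil => simp
  | cons s L ih =>
    have h2 : pot (s :: L) = 2 ^ s.2.2.length + pot L := by simp [pot]
    have h3 : 1 ≤ 2 ^ s.2.2.length := Nat.one_le_two_pow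
    rw [List.length_cons]
    omega

theorem sz_bstep (u : List Bool) (s : BSt) (M : ℕ) (hM : sz s ≤ M) :
    ∀ q ∈ bstep u s, sz q ≤ M + 4 := by
  obtain ⟨w, Y, d⟩ := s
  intro q hq
  unfold bstep at hq
  simp only at hq
  have e2 : sz true = 3 := rfl
  rw [sz_pair, sz_pair] at hM
  cases h : Y.all (nadj u) with
  | true =>
    simp only [h, cond_true, List.mem_singleton] at hq
    rw [hq, sz_pair, sz_pair, sz_cons]
    omega
  | false =>
    simp only [h, cond_false] at hq
    cases d with
    | nil => simp at hq
    | cons c d =>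
      simp only [List.isEmpty_cons, cond_false, List.tail_cons, List.mem_cons, List.not_mem_nil,
        or_false] at hq
      rw [sz_cons] at hM
      have h3 := sz_filter_le (nadj u) Y
      rcases hq with hq | hq
      · rw [hq, sz_pair, sz_pair]; omega
      · rw [hq, sz_pair, sz_pair]; omega

theorem sz_bfold (X : List (List Bool)) : ∀ (L : List BSt) (M : ℕ), (∀ s ∈ L, sz s ≤ M) →
    ∀ s ∈ bfold X L, sz s ≤ M + 4 * X.length := by
  induction X with
  | nil => intro L M h s hs; simpa [bfold] using h s hs
  | cons u X ih =>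
    intro L M h s hs
    unfold bfold at hs ih
    rw [List.foldl_cons] at hs
    have h1 : ∀ s ∈ L.flatMap (bstep u), sz s ≤ M + 4 := by
      intro q hq
      obtain ⟨s', hs', hq⟩ := List.mem_flatMap.1 hq
      exact sz_bstep u s' M (h s' hs') q hq
    have h2 := ih _ _ h1 s hs
    rw [List.length_cons]
    omega

theorem bfold_bound (X : List (List Bool)) (Y : List ℕ) (d : Un) :
    sz (bfold X [([], Y, d)]) ≤ 2 ^ d.length * (sz Y + sz d + 4 * X.length + 4) + 1 := by
  have h1 := pot_bfold X [([], Y, d)]
  have h2 := length_le_pot (bfold X [([], Y, d)])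
  have h3 : pot [(([] : Un), Y, d)] = 2 ^ d.length := by simp [pot]
  have h4 := sz_bfold X [([], Y, d)] (sz Y + sz d + 3) (by
    intro s hs
    rw [List.mem_singleton] at hs
    rw [hs, sz_pair, sz_pair, sz_nil]
    omega)
  have h5 := sz_list_le h4
  refine h5.trans (Nat.add_le_add_right ?_ _)
  exact Nat.mul_le_mul (by omega) (by omega)

/-! ### The sum -/

theorem tot_le (E : List Un) : tot E ≤ 2 ^ sz E := by
  induction E with
  | nil => simp [tot_nil]
  | cons e E ih =>
    rw [tot_cons, sz_cons]
    have h1 := length_lt_sz e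
    have h2 : 2 ^ e.length ≤ 2 ^ (sz e + sz E) := Nat.pow_le_pow_right (by norm_num) (by omega)
    have h3 : 2 ^ sz E ≤ 2 ^ (sz e + sz E) := Nat.pow_le_pow_right (by norm_num) (by omega)
    rw [pow_succ]
    omega

theorem val_pow (e : Un) : val (e.map (fun _ => false) ++ [true]) = 2 ^ e.length := by
  induction e with
  | nil => rfl
  | cons c e ih =>
    rw [List.map_cons, List.cons_append, val, ih, List.length_cons, pow_succ]
    simp only [Bool.false_eq_true, if_false]
    ring

theorem foldl_tot (E : List Un) : ∀ n : ℕ,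
    E.foldl (fun (s : ℕ) (e : Un) => s + val (e.map (fun _ => false) ++ [true])) n = n + tot E := by
  induction E with
  | nil => intro n; simp [tot_nil]
  | cons e E ih =>
    intro n
    rw [List.foldl_cons, ih, val_pow, tot_cons]
    ring

section

variable {γ : Type} [Dat γ] [hC : Fact Core]

@[fun_prop] theorem nadj_pt {u : γ → List Bool} {j : γ → ℕ} (hu : PolyF u) (hj : PolyF j) :
    PolyF (fun x => nadj (u x) (j x)) := by
  unfold nadj
  fun_prop

@[fun_prop] theorem childL_pt {X : γ → List (List Bool)} {Y : γ → List ℕ} (hX : PolyF X)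
    (hY : PolyF Y) : PolyF (fun x => childL (X x) (Y x)) := by
  have h1 : PolyF (fun x => (X x).foldl (fun (s : List (List Bool) × List St) u =>
      (s.1.tail, (s.1.tail, (Y x).filter (nadj u)) :: s.2)) (X x, [])) := by
    refine PolyF.foldl (by fun_prop) (by fun_prop) hX
      (fun x => sz (X x) + 2 + sz (X x) * (sz (X x) + sz (Y x) + 2))
      ((hX.bound.add (PolyB.const 2)).add
        (hX.bound.mul ((hX.bound.add hY.bound).add (PolyB.const 2)))) ?_
    intro x l₁ hl₁
    have h1 := childL_pre (Y x) l₁ (X x) []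
    have h2 := length_lt_sz l₁
    have h3 := sz_le_of_prefix hl₁
    have h4 : sz ([] : List St) = 1 := rfl
    have h5 : l₁.length * (sz (X x) + sz (Y x) + 2) ≤ sz (X x) * (sz (X x) + sz (Y x) + 2) :=
      Nat.mul_le_mul_right _ (by omega)
    omega
  refine h1.snd.reverse.congr fun x => ?_
  rw [childL_foldl]
  simp

@[fun_prop] theorem childR_pt {X : γ → List (List Bool)} {Y : γ → List ℕ} (hX : PolyF X)
    (hY : PolyF Y) : PolyF (fun x => childR (X x) (Y x)) := by
  have h1 : PolyF (fun x => (Y x).foldl (fun (s : List ℕ × List St) j =>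
      (s.1.tail, ((X x).filter (fun u => nadj u j), s.1.tail) :: s.2)) (Y x, [])) := by
    refine PolyF.foldl (by fun_prop) (by fun_prop) hY
      (fun x => sz (Y x) + 2 + sz (Y x) * (sz (X x) + sz (Y x) + 2))
      ((hY.bound.add (PolyB.const 2)).add
        (hY.bound.mul ((hX.bound.add hY.bound).add (PolyB.const 2)))) ?_
    intro x l₁ hl₁
    have h1 := childR_pre (X x) l₁ (Y x) []
    have h2 := length_lt_sz l₁
    have h3 := sz_le_of_prefix hl₁
    have h4 : sz ([] : List St) = 1 := rfl
    have h5 : l₁.length * (sz (X x) + sz (Y x) + 2) ≤ sz (Y x) * (sz (X x) + sz (Y x) + 2) :=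
      Nat.mul_le_mul_right _ (by omega)
    omega
  refine h1.snd.reverse.congr fun x => ?_
  rw [childR_foldl]
  simp

@[fun_prop] theorem un_pt {α : Type} [Dat α] {l : γ → List α} (hl : PolyF l) :
    PolyF (fun x => un (l x)) := by
  unfold un
  fun_prop

@[fun_prop] theorem stepL_pt {p : γ → List Un × List St} (hp : PolyF p) :
    PolyF (fun x => stepL (p x)) := by
  unfold stepL
  fun_prop

@[fun_prop] theorem stepR_pt {p : γ → List Un × List St} (hp : PolyF p) :
    PolyF (fun x => stepR (p x)) := by
  unfold stepR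
  fun_prop

theorem iterL_pt {p : γ → List Un × List St} (hp : PolyF p) (n : ℕ) :
    PolyF (fun x => stepL^[n] (p x)) := by
  induction n with
  | zero => exact hp
  | succ n ih =>
    have := stepL_pt ih
    exact this.congr fun x => by rw [Function.iterate_succ_apply']

theorem iterR_pt {p : γ → List Un × List St} (hp : PolyF p) (n : ℕ) :
    PolyF (fun x => stepR^[n] (p x)) := by
  induction n with
  | zero => exact hp
  | succ n ih =>
    have := stepR_pt ih
    exact this.congr fun x => by rw [Function.iterate_succ_apply']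

@[fun_prop] theorem rep_pt {l : γ → Un} (n : ℕ) (hl : PolyF l) :
    PolyF (fun x => rep n (l x)) := by
  induction n with
  | zero => exact PolyF.const _
  | succ n ih =>
    show PolyF (fun x => l x ++ rep n (l x))
    exact hl.append ih

/-- The input of the algorithm. -/
abbrev In : Type := Un × Un × List (List Bool)

theorem phase1_pt (r : ℕ) : PolyF (fun x : In => phase1 r x.2.1 x.2.2) := by
  unfold phase1
  refine iterR_pt (iterL_pt ?_ r) r
  fun_prop

theorem budget_pt (r C : ℕ) : PolyF (fun x : In => budget r C x.1 x.2.1 x.2.2) := by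
  unfold budget
  have h1 : PolyF (fun x : In => x.1.length.bits) := by fun_prop
  have h2 : PolyF (fun x : In => (x.2.2.length + x.2.1.length + 1).bits) := by fun_prop
  exact (rep_pt 3 h1).append (rep_pt (3 * (2 * r + C)) h2)

omit hC in
theorem two_pow_size_le (n : ℕ) : 2 ^ n.size ≤ 2 * n + 1 := by
  rcases Nat.eq_zero_or_pos n with h | h
  · rw [h]; simp
  · have h1 : n.size = Nat.log 2 n + 1 := by
      have h2 : n.size ≤ Nat.log 2 n + 1 := Nat.size_le.2 (Nat.lt_pow_succ_log_self (by norm_num) n)
      have h3 : Nat.log 2 n < n.size := by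
        rw [Nat.lt_size]
        exact Nat.pow_log_le_self 2 (by omega)
      omega
    rw [h1, pow_succ]
    have := Nat.pow_log_le_self 2 (x := n) (by omega)
    omega

theorem budget_bound (r C : ℕ) :
    PolyB (fun x : In => 2 ^ (budget r C x.1 x.2.1 x.2.2).length) := by
  have h1 : PolyB (fun x : In => (2 * sz x + 1) ^ 3 * (4 * sz x + 5) ^ (3 * (2 * r + C))) := by
    have h2 : PolyB (fun x : In => sz x) := PolyB.sz
    exact ((((PolyB.const 2).mul h2).add (PolyB.const 1)).pow 3).mul
      ((((PolyB.const 4).mul h2).add (PolyB.const 5)).pow (3 * (2 * r + C)))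
  refine h1.of_le fun x => ?_
  obtain ⟨T, B, X⟩ := x
  unfold budget
  rw [List.length_append, rep_length, rep_length, Nat.size_eq_bits_len, Nat.size_eq_bits_len,
    pow_add]
  have e1 := length_lt_sz T
  have e2 := length_lt_sz B
  have e3 := length_lt_sz X
  have e4 : sz (T, B, X) = sz T + (sz B + sz X + 1) + 1 := rfl
  refine Nat.mul_le_mul ?_ ?_
  · rw [mul_comm, pow_mul]
    exact Nat.pow_le_pow_left ((two_pow_size_le _).trans (by dsimp only; omega)) _
  · rw [mul_comm, pow_mul]
    exact Nat.pow_le_pow_left ((two_pow_size_le _).trans (by dsimp only; omega)) _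

theorem bstep_pt {u : γ → List Bool} {s : γ → BSt} (hu : PolyF u) (hs : PolyF s) :
    PolyF (fun x => bstep (u x) (s x)) := by
  unfold bstep
  fun_prop

theorem leafExp_pt (r C : ℕ) :
    PolyF (fun p : In × St => leafExp (budget r C p.1.1 p.1.2.1 p.1.2.2) p.2) := by
  have hb : PolyF (fun p : In × St => budget r C p.1.1 p.1.2.1 p.1.2.2) :=
    (budget_pt r C).comp (PolyF.fst PolyF.id)
  have hB : PolyB (fun p : In × St => 2 ^ (budget r C p.1.1 p.1.2.1 p.1.2.2).length) := by
    obtain ⟨c, hc⟩ := budget_bound r C
    refine ⟨c, fun p => (hc p.1).trans (Nat.pow_le_pow_left ?_ _)⟩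
    have := sz_fst p
    omega
  have h1 : PolyF (fun p : In × St =>
      bfold p.2.1 [([], p.2.2, budget r C p.1.1 p.1.2.1 p.1.2.2)]) := by
    unfold bfold
    refine PolyF.foldl (f := fun (_ : In × St) (st : List BSt) u => st.flatMap (bstep u)) ?_
      (by fun_prop) (by fun_prop)
      (fun p => 2 ^ (budget r C p.1.1 p.1.2.1 p.1.2.2).length *
        (sz p.2.2 + sz (budget r C p.1.1 p.1.2.1 p.1.2.2) + 4 * sz p.2.1 + 4) + 1) ?_ ?_
    · refine PolyF.flatMap (f := fun (p : (In × St) × List BSt × List Bool) s => bstep p.2.2 s)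
        ?_ (by fun_prop)
      exact bstep_pt (by fun_prop) (by fun_prop)
    · have k1 : PolyB (fun p : In × St => sz p.2.2) :=
        (PolyF.snd (PolyF.snd PolyF.id) : PolyF (fun p : In × St => p.2.2)).bound
      have k2 : PolyB (fun p : In × St => sz p.2.1) :=
        (PolyF.fst (PolyF.snd PolyF.id) : PolyF (fun p : In × St => p.2.1)).bound
      exact (hB.mul (((k1.add hb.bound).add ((PolyB.const 4).mul k2)).add (PolyB.const 4))).add
        (PolyB.const 1)
    · intro p l₁ hl₁
      have h2 := bfold_bound l₁ p.2.2 (budget r C p.1.1 p.1.2.1 p.1.2.2)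
      unfold bfold at h2
      refine h2.trans (Nat.add_le_add_right (Nat.mul_le_mul_left _ ?_) _)
      have h3 := length_lt_sz l₁
      have h4 := sz_le_of_prefix hl₁
      omega
  unfold leafExp
  exact PolyF.map (f := fun _ (q : BSt) => q.1 ++ un q.2.1) (by fun_prop) h1

theorem exps_pt (r C : ℕ) : PolyF (fun x : In => exps r C x.1 x.2.1 x.2.2) := by
  have h1 := phase1_pt (hC := hC) r
  unfold exps
  exact h1.fst.append (PolyF.flatMap (leafExp_pt r C) h1.snd)

theorem tot_pt {E : γ → List Un} (hE : PolyF E) : PolyF (fun x => tot (E x)) := by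
  have h1 : PolyF (fun x => (E x).foldl
      (fun (s : ℕ) (e : Un) => s + val (e.map (fun _ => false) ++ [true])) 0) := by
    refine PolyF.foldl (by fun_prop) (by fun_prop) hE (fun x => 4 * (sz (E x) + 1) + 1)
      (((PolyB.const 4).mul (hE.bound.add (PolyB.const 1))).add (PolyB.const 1)) ?_
    intro x l₁ hl₁
    rw [foldl_tot, zero_add, sz_nat]
    refine (sz_bits_le _).trans ?_
    rw [Nat.size_eq_bits_len]
    have h2 : (tot l₁).size ≤ sz l₁ + 1 := by
      rw [Nat.size_le]
      exact (tot_le l₁).trans_lt (Nat.pow_lt_pow_right (by norm_num) (by omega))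
    have h3 := sz_le_of_prefix hl₁
    omega
  refine h1.congr fun x => ?_
  rw [foldl_tot, zero_add]

theorem alg_pt (r C : ℕ) : PolyF (fun x : In => alg r C x.1 x.2.1 x.2.2) :=
  tot_pt (exps_pt r C)

end

end Pool.Agent.BisTh
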