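import Mathlib

/-!
# The counting recursion and the branching algorithm
-/

set_option autoImplicit false

namespace Pool.Agent.BisTh

/-- `j` is not a neighbour of the left vertex with row `u`. -/
def nadj (u : List Bool) (j : ℕ) : Bool := !(u.getD j false)

/-- Number of independent pairs in `X × Y`. -/
def cnt : List (List Bool) → List ℕ → ℕ
  | [], Y => 2 ^ Y.length
  | u :: X, Y => cnt X Y + cnt X (Y.filter (nadj u))

theorem cnt_nil_right : ∀ X : List (List Bool), cnt X [] = 2 ^ X.length
  | [] => rfl
  | u :: X => by
    rw [cnt, List.filter_nil, cnt_nil_right X, List.length_cons, pow_succ]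
    ring

theorem cnt_cons_right : ∀ (X : List (List Bool)) (j : ℕ) (Y : List ℕ),
    cnt X (j :: Y) = cnt X Y + cnt (X.filter fun u => nadj u j) Y
  | [], j, Y => by
    simp only [cnt, List.length_cons, List.filter_nil, pow_succ]
    ring
  | u :: X, j, Y => by
    rw [cnt, cnt_cons_right X j Y]
    by_cases h : nadj u j = true
    · rw [List.filter_cons_of_pos (by exact h), cnt_cons_right X j (Y.filter (nadj u)),
        List.filter_cons_of_pos (by exact h), cnt, cnt]
      ring
    · rw [List.filter_cons_of_neg (by exact h), List.filter_cons_of_neg (by exact h), cnt]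
      ring

theorem cnt_le : ∀ (X : List (List Bool)) (Y : List ℕ), cnt X Y ≤ 2 ^ (X.length + Y.length)
  | [], Y => by simp [cnt]
  | u :: X, Y => by
    have h1 := cnt_le X Y
    have h2 := cnt_le X (Y.filter (nadj u))
    have h3 : (Y.filter (nadj u)).length ≤ Y.length := List.length_filter_le _ _
    have h4 : 2 ^ (X.length + (Y.filter (nadj u)).length) ≤ 2 ^ (X.length + Y.length) :=
      Nat.pow_le_pow_right (by norm_num) (by omega)
    rw [cnt, List.length_cons, show X.length + 1 + Y.length = X.length + Y.length + 1 by ring,
      pow_succ]
    omega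

theorem cnt_ge_right : ∀ (X : List (List Bool)) (Y : List ℕ), 2 ^ Y.length ≤ cnt X Y
  | [], Y => le_rfl
  | u :: X, Y => by
    rw [cnt]
    have := cnt_ge_right X Y
    omega

theorem cnt_ge_left : ∀ (X : List (List Bool)) (Y : List ℕ), 2 ^ X.length ≤ cnt X Y
  | X, [] => by rw [cnt_nil_right]
  | X, j :: Y => by
    rw [cnt_cons_right]
    have := cnt_ge_left X Y
    omega

/-! ### Branching with a budget -/

/-- The value computed by branching with budget `d`. -/
def apx : ℕ → List (List Bool) → List ℕ → ℕ
  | _, [], Y => 2 ^ Y.length
  | d, u :: X, Y =>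
    if Y.all (nadj u) = true then 2 * apx d X Y
    else match d with
      | 0 => 0
      | d + 1 => apx d X Y + apx d X (Y.filter (nadj u))

theorem apx_le : ∀ (X : List (List Bool)) (d : ℕ) (Y : List ℕ), apx d X Y ≤ cnt X Y
  | [], d, Y => by simp [apx, cnt]
  | u :: X, d, Y => by
    rw [cnt]
    by_cases h : Y.all (nadj u) = true
    · have h1 := apx_le X d Y
      have h2 : Y.filter (nadj u) = Y := List.filter_eq_self.2 (List.all_eq_true.1 h)
      rw [h2]
      rw [apx.eq_def]
      simp only [h, if_true]
      omega
    · rw [apx.eq_def]
      cases d with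
      | zero => simp [h]
      | succ d =>
        have h1 := apx_le X d Y
        have h2 := apx_le X d (Y.filter (nadj u))
        simp only [h, if_false, Bool.false_eq_true]
        omega

theorem apx_err : ∀ (X : List (List Bool)) (d : ℕ) (Y : List ℕ),
    4 ^ d * cnt X Y ≤ 4 ^ d * apx d X Y + 3 ^ d * 2 ^ (X.length + Y.length)
  | [], d, Y => by simp [apx, cnt]
  | u :: X, d, Y => by
    have hlen : 2 ^ ((u :: X).length + Y.length) = 2 * 2 ^ (X.length + Y.length) := by
      rw [List.length_cons, show X.length + 1 + Y.length = X.length + Y.length + 1 by ring,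
        pow_succ]
      ring
    rw [hlen, cnt]
    by_cases h : Y.all (nadj u) = true
    · have h1 := apx_err X d Y
      have h2 : Y.filter (nadj u) = Y := List.filter_eq_self.2 (List.all_eq_true.1 h)
      rw [h2, apx.eq_def]
      simp only [h, if_true]
      nlinarith
    · rw [apx.eq_def]
      have h3 : (Y.filter (nadj u)).length + 1 ≤ Y.length := by
        have h5 : ∃ y ∈ Y, ¬ nadj u y = true := by
          by_contra hcon
          push Not at hcon
          exact h (List.all_eq_true.2 hcon)
        have := List.length_filter_lt_length_iff_exists.2 h5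
        omega
      have h4 : 2 * 2 ^ (X.length + (Y.filter (nadj u)).length) ≤ 2 ^ (X.length + Y.length) := by
        calc 2 * 2 ^ (X.length + (Y.filter (nadj u)).length)
            = 2 ^ (X.length + (Y.filter (nadj u)).length + 1) := by rw [pow_succ]; ring
          _ ≤ 2 ^ (X.length + Y.length) := Nat.pow_le_pow_right (by norm_num) (by omega)
      cases d with
      | zero =>
        have h1 := cnt_le X Y
        have h2 := cnt_le X (Y.filter (nadj u))
        simp only [h, if_false, Bool.false_eq_true]
        omega
      | succ d =>
        have h1 := apx_err X d Y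
        have h2 := apx_err X d (Y.filter (nadj u))
        simp only [h, if_false, Bool.false_eq_true]
        have h5 : 3 ^ d * (2 * 2 ^ (X.length + (Y.filter (nadj u)).length)) ≤
            3 ^ d * 2 ^ (X.length + Y.length) := Nat.mul_le_mul_left _ h4
        rw [pow_succ, pow_succ]
        nlinarith

/-! ### First-element expansion -/

/-- Children of a state: choose the first element on the left. -/
def childL : List (List Bool) → List ℕ → List (List (List Bool) × List ℕ)
  | [], _ => []
  | u :: X, Y => (X, Y.filter (nadj u)) :: childL X Y

/-- Children of a state: choose the first element on the right. -/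
def childR : List (List Bool) → List ℕ → List (List (List Bool) × List ℕ)
  | _, [] => []
  | X, j :: Y => (X.filter (fun u => nadj u j), Y) :: childR X Y

/-- The number of independent pairs of a state. -/
def scnt (s : List (List Bool) × List ℕ) : ℕ := cnt s.1 s.2

theorem cnt_childL : ∀ (X : List (List Bool)) (Y : List ℕ),
    cnt X Y = 2 ^ Y.length + ((childL X Y).map scnt).sum
  | [], Y => by simp [cnt, childL]
  | u :: X, Y => by
    rw [cnt, cnt_childL X Y, childL, List.map_cons, List.sum_cons]
    simp only [scnt]
    ring

theorem cnt_childR : ∀ (X : List (List Bool)) (Y : List ℕ),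
    cnt X Y = 2 ^ X.length + ((childR X Y).map scnt).sum
  | X, [] => by simp [cnt_nil_right, childR]
  | X, j :: Y => by
    rw [cnt_cons_right, cnt_childR X Y, childR, List.map_cons, List.sum_cons]
    simp only [scnt]
    ring

end Pool.Agent.BisTh
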