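import Pool.Agent.BisTh.Leaf

/-!
# The number of independent sets is given by the recursion
-/

set_option autoImplicit false

namespace Pool.Agent.BisTh

open Finset

/-- Independent pairs inside `A × B`, counted by the left part. -/
def pairs (G : Bip) (A : Finset (Fin G.a)) (B : Finset (Fin G.b)) : ℕ :=
  ∑ S ∈ A.powerset, 2 ^ (B.filter fun j => ∀ i ∈ S, G.adj i j = false).card

theorem pairs_empty (G : Bip) (B : Finset (Fin G.b)) : pairs G ∅ B = 2 ^ B.card := by
  simp [pairs]

theorem pairs_insert (G : Bip) (i : Fin G.a) (A : Finset (Fin G.a)) (B : Finset (Fin G.b))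
    (hi : i ∉ A) : pairs G (insert i A) B =
      pairs G A B + pairs G A (B.filter fun j => G.adj i j = false) := by
  unfold pairs
  rw [sum_powerset_insert hi]
  congr 1
  refine sum_congr rfl fun S _ => ?_
  congr 2
  rw [filter_filter]
  refine filter_congr fun j _ => ?_
  simp

theorem cnt_eq_pairs (G : Bip) : ∀ (I : List (Fin G.a)) (J : List (Fin G.b)), I.Nodup → J.Nodup →
    cnt (I.map (rowOf G)) (J.map Fin.val) = pairs G I.toFinset J.toFinset
  | [], J, _, hJ => by
    rw [List.map_nil, cnt, List.length_map, List.toFinset_nil, pairs_empty,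
      List.toFinset_card_of_nodup hJ]
  | i :: I, J, hI, hJ => by
    obtain ⟨h1, h2⟩ := List.nodup_cons.1 hI
    rw [List.map_cons, cnt, filter_map_val, cnt_eq_pairs G I J h2 hJ,
      cnt_eq_pairs G I _ h2 (hJ.filter _), List.toFinset_cons,
      pairs_insert G i _ _ (by simpa using h1)]
    congr 2
    ext j
    simp

theorem count_eq_pairs (G : Bip) : G.count = pairs G univ univ := by
  classical
  have e : {X : Finset (Fin G.a ⊕ Fin G.b) //
      G.graph.IsIndepSet (X : Set (Fin G.a ⊕ Fin G.b))} ≃
      (Σ S : Finset (Fin G.a), {T : Finset (Fin G.b) // ∀ i ∈ S, ∀ j ∈ T, G.adj i j = false}) :=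
    { toFun := fun X => ⟨univ.filter fun i => Sum.inl i ∈ X.1,
        univ.filter fun j => Sum.inr j ∈ X.1, by
          intro i hi j hj
          simp only [mem_filter, mem_univ, true_and] at hi hj
          have h := X.2 (Finset.mem_coe.2 hi) (Finset.mem_coe.2 hj) (by simp)
          by_contra hcon
          rw [Bool.not_eq_false] at hcon
          exact h hcon⟩
      invFun := fun p => ⟨p.1.map ⟨Sum.inl, Sum.inl_injective⟩ ∪
        p.2.1.map ⟨Sum.inr, Sum.inr_injective⟩, by
          intro u hu v hv _ hadj
          have key : ∀ i j, Sum.inl i ∈ (p.1.map ⟨Sum.inl, Sum.inl_injective⟩ ∪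
              p.2.1.map ⟨Sum.inr, Sum.inr_injective⟩ : Finset (Fin G.a ⊕ Fin G.b)) →
              Sum.inr j ∈ (p.1.map ⟨Sum.inl, Sum.inl_injective⟩ ∪
              p.2.1.map ⟨Sum.inr, Sum.inr_injective⟩ : Finset (Fin G.a ⊕ Fin G.b)) →
              G.adj i j = false := by
            intro i j hi hj
            refine p.2.2 i ?_ j ?_
            · simpa using hi
            · simpa using hj
          rcases u with i | j <;> rcases v with i' | j'
          · exact hadj
          · have := key i j' (Finset.mem_coe.1 hu) (Finset.mem_coe.1 hv)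
            have h2 : G.adj i j' = true := hadj
            rw [this] at h2
            exact Bool.false_ne_true h2
          · have := key i' j (Finset.mem_coe.1 hv) (Finset.mem_coe.1 hu)
            have h2 : G.adj i' j = true := hadj
            rw [this] at h2
            exact Bool.false_ne_true h2
          · exact hadj⟩
      left_inv := by
        rintro ⟨X, hX⟩
        simp only [Subtype.mk.injEq]
        ext u
        rcases u with i | j <;> simp
      right_inv := by
        rintro ⟨S, T, hT⟩
        have h1 : (univ.filter fun i : Fin G.a => Sum.inl i ∈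
            (S.map ⟨Sum.inl, Sum.inl_injective⟩ ∪ T.map ⟨Sum.inr, Sum.inr_injective⟩ :
              Finset (Fin G.a ⊕ Fin G.b))) = S := by ext i; simp
        have h2 : (univ.filter fun j : Fin G.b => Sum.inr j ∈
            (S.map ⟨Sum.inl, Sum.inl_injective⟩ ∪ T.map ⟨Sum.inr, Sum.inr_injective⟩ :
              Finset (Fin G.a ⊕ Fin G.b))) = T := by ext j; simp
        refine Sigma.subtype_ext ?_ ?_
        · exact h1
        · exact h2 }
  unfold Bip.count pairs
  rw [Nat.card_congr e, Nat.card_eq_fintype_card, Fintype.card_sigma, powerset_univ]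
  refine sum_congr rfl fun S _ => ?_
  rw [Fintype.card_subtype, ← card_powerset]
  congr 1
  ext T
  simp only [mem_filter, mem_univ, true_and, mem_powerset, subset_iff]
  constructor
  · intro h j hj i hi
    exact h i hi j hj
  · intro h i hi j hj
    exact h hj i hi

theorem count_eq (G : Bip) : G.count = cnt (rowsOf G) (List.range G.b) := by
  have h := cnt_eq_pairs G (List.finRange G.a) (List.finRange G.b) (List.nodup_finRange _)
    (List.nodup_finRange _)
  rw [count_eq_pairs]
  have h1 : (List.finRange G.a).toFinset = univ := by ext; simp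
  have h2 : (List.finRange G.b).toFinset = univ := by ext; simp
  have h3 : (List.finRange G.b).map Fin.val = List.range G.b := by simp
  rw [h1, h2, h3] at h
  exact h.symm

/-- The algorithm on graphs. -/
noncomputable def algG (r C : ℕ) (x : Bip × ℕ) : ℕ :=
  alg r C (List.replicate x.2 true) (List.replicate x.1.b true) (rowsOf x.1)

theorem algG_spec (r C : ℕ) (G : Bip) (t : ℕ) (hG : G.Expands r C) :
    algG r C (G, t) ≤ G.count ∧ t * (G.count - algG r C (G, t)) ≤ G.count := by
  have h1 := alg_le r C (List.replicate t true) (List.replicate G.b true) (rowsOf G)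
  have h2 := alg_good G r C (List.replicate t true) (List.replicate G.b true) (by simp) hG
  rw [List.length_replicate] at h1 h2
  rw [List.length_replicate, ← count_eq] at h2
  rw [← count_eq] at h1
  exact ⟨h1, h2⟩

end Pool.Agent.BisTh
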