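import Mathlib

/-!
# Counting independent sets of bipartite graphs: instances, encodings, the statement

MP_29585b_lc. An instance is a bipartite graph with left side `Fin a` and right side `Fin b`.
Algorithms are Turing machines in the sense of Mathlib (`Turing.TM2ComputableInPolyTime`) working
on words over a finite alphabet.
-/

set_option autoImplicit false

namespace Pool.Agent.BisTh

/-- A bipartite graph with left side `Fin a` and right side `Fin b`. -/
structure Bip : Type where
  /-- number of left vertices -/
  a : ℕ
  /-- number of right vertices -/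
  b : ℕ
  /-- adjacency -/
  adj : Fin a → Fin b → Bool

/-- The graph on the disjoint union of the two sides. -/
def Bip.graph (G : Bip) : SimpleGraph (Fin G.a ⊕ Fin G.b) where
  Adj u v := match u, v with
    | .inl i, .inr j => G.adj i j = true
    | .inr j, .inl i => G.adj i j = true
    | _, _ => False
  symm := ⟨by
    rintro (i | j) (i' | j') h
    · exact h
    · exact h
    · exact h
    · exact h⟩
  loopless := ⟨by rintro (i | j) h <;> exact h⟩

/-- The number of independent sets. -/
noncomputable def Bip.count (G : Bip) : ℕ :=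
  Nat.card {X : Finset (Fin G.a ⊕ Fin G.b) // G.graph.IsIndepSet (X : Set (Fin G.a ⊕ Fin G.b))}

/-- Neighbours of a set of left vertices. -/
def Bip.nbR (G : Bip) (S : Finset (Fin G.a)) : Finset (Fin G.b) :=
  Finset.univ.filter fun j => ∃ i ∈ S, G.adj i j = true

/-- Neighbours of a set of right vertices. -/
def Bip.nbL (G : Bip) (T : Finset (Fin G.b)) : Finset (Fin G.a) :=
  Finset.univ.filter fun i => ∃ j ∈ T, G.adj i j = true

/-- Degree of a left vertex. -/
def Bip.degL (G : Bip) (i : Fin G.a) : ℕ := (G.nbR {i}).card

/-- Degree of a right vertex. -/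
def Bip.degR (G : Bip) (j : Fin G.b) : ℕ := (G.nbL {j}).card

/-- The class `O(r, C)`: if `S` and `T` are sets of `r` vertices on the left and on the right
without edges between them then `|N(S)| + |N(T)| ≥ min a b - C * log_2 (a + b)`
(`Nat.log 2` is the integer part of the logarithm). -/
def Bip.Expands (G : Bip) (r C : ℕ) : Prop :=
  ∀ (S : Finset (Fin G.a)) (T : Finset (Fin G.b)), S.card = r → T.card = r →
    (∀ i ∈ S, ∀ j ∈ T, G.adj i j = false) →
    min G.a G.b ≤ (G.nbR S).card + (G.nbL T).card + C * Nat.log 2 (G.a + G.b)

/-- Both sides have `N` vertices, and every degree is at least `(N - N ^ (1 / c)) / 2`,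
in the form `(N - 2 deg) ^ c ≤ N` (truncated subtraction). -/
def Bip.NearHalf (G : Bip) (c : ℕ) : Prop :=
  G.a = G.b ∧ (∀ i, (G.a - 2 * G.degL i) ^ c ≤ G.a) ∧ ∀ j, (G.a - 2 * G.degR j) ^ c ≤ G.a

/-- Both sides have `N` vertices, and every degree is at least `N / 2`. -/
def Bip.Half (G : Bip) : Prop :=
  G.a = G.b ∧ (∀ i, G.a ≤ 2 * G.degL i) ∧ ∀ j, G.a ≤ 2 * G.degR j

/-! ### Encodings -/

/-- The alphabet: unary marks, two separators, and the two binary digits. -/
inductive Letter : Type
  | one | stop | row | b0 | b1
  deriving DecidableEq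

instance : Fintype Letter where
  elems := {.one, .stop, .row, .b0, .b1}
  complete := by intro x; cases x <;> decide

/-- One binary digit as a letter. -/
def Letter.ofBool (b : Bool) : Letter := if b then .b1 else .b0

/-- The number `n` in unary, with an end mark. -/
def encUnary (n : ℕ) : List Letter := List.replicate n .one ++ [.stop]

/-- A graph: the number of right vertices in unary, then the rows of the adjacency matrix. -/
def encBip (G : Bip) : List Letter :=
  encUnary G.b ++ (List.finRange G.a).flatMap fun i =>
    (List.finRange G.b).map (fun j => Letter.ofBool (G.adj i j)) ++ [.row]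

/-- A graph together with a number in unary. -/
def encInput (x : Bip × ℕ) : List Letter := encUnary x.2 ++ encBip x.1

/-- A number in binary, least significant digit first. -/
def encNat (n : ℕ) : List Bool := n.bits

/-- Polynomial time algorithm with relative error `1 / t` on the class `O(r, C)`. -/
def StatementA : Prop :=
  ∀ r C : ℕ, 1 ≤ r → ∃ A : Bip × ℕ → ℕ,
    Nonempty (Turing.TM2ComputableInPolyTime encInput encNat A) ∧
    ∀ (G : Bip) (t : ℕ), G.Expands r C →
      A (G, t) ≤ G.count ∧ t * (G.count - A (G, t)) ≤ G.count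

/-- Reduction of the general problem to graphs with all degrees nearly `N / 2`. -/
def StatementB : Prop :=
  ∀ c : ℕ, 1 ≤ c → ∃ ρ : Bip × ℕ → Bip × ℕ,
    Nonempty (Turing.TM2ComputableInPolyTime encInput encInput ρ) ∧
    ∀ (H : Bip) (s : ℕ), (ρ (H, s)).1.NearHalf c ∧
      2 ^ (ρ (H, s)).2 * H.count ≤ (ρ (H, s)).1.count ∧
      2 ^ s * ((ρ (H, s)).1.count - 2 ^ (ρ (H, s)).2 * H.count) ≤ 2 ^ (ρ (H, s)).2

/-- Reduction of exact counting to graphs with all degrees at least `N / 2`. -/
def StatementC : Prop :=
  ∃ ρ : Bip → Bip, Nonempty (Turing.TM2ComputableInPolyTime encBip encBip ρ) ∧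
    ∀ H : Bip, (ρ H).Half ∧
      (ρ H).count + 4 * 2 ^ (H.a + H.b) = 2 ^ (H.a + H.b) * H.count + 3 * 4 ^ (H.a + H.b) + 1

end Pool.Agent.BisTh
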