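import Pool.Agent.BisTh.Defs
import Pool.Agent.BisTh.Algo

/-!
# The states of the algorithm are small, and the error bound
-/

set_option autoImplicit false

namespace Pool.Agent.BisTh

open Finset

/-- The row of a left vertex. -/
def rowOf (G : Bip) (i : Fin G.a) : List Bool := (List.finRange G.b).map fun j => G.adj i j

/-- The rows of the adjacency matrix. -/
def rowsOf (G : Bip) : List (List Bool) := (List.finRange G.a).map (rowOf G)

theorem nadj_rowOf (G : Bip) (i : Fin G.a) (j : Fin G.b) :
    nadj (rowOf G i) j.val = !(G.adj i j) := by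
  unfold nadj rowOf
  rw [List.getD_eq_getElem _ _ (by simp)]
  simp

theorem filter_map_val (G : Bip) (i : Fin G.a) (J : List (Fin G.b)) :
    (J.map Fin.val).filter (nadj (rowOf G i)) = (J.filter fun j => !(G.adj i j)).map Fin.val := by
  induction J with
  | nil => rfl
  | cons j J ih =>
    by_cases h : G.adj i j = true
    · rw [List.map_cons, List.filter_cons_of_neg (by simp [nadj_rowOf, h]),
        List.filter_cons_of_neg (by simp [h]), ih]
    · rw [List.map_cons, List.filter_cons_of_pos (by simp [nadj_rowOf, h]),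
        List.filter_cons_of_pos (by simp [h]), ih, List.map_cons]

theorem filter_map_row (G : Bip) (j : Fin G.b) (I : List (Fin G.a)) :
    (I.map (rowOf G)).filter (fun u => nadj u j.val) =
      (I.filter fun i => !(G.adj i j)).map (rowOf G) := by
  induction I with
  | nil => rfl
  | cons i I ih =>
    by_cases h : G.adj i j = true
    · rw [List.map_cons, List.filter_cons_of_neg (by simp [nadj_rowOf, h]),
        List.filter_cons_of_neg (by simp [h]), ih]
    · rw [List.map_cons, List.filter_cons_of_pos (by simp [nadj_rowOf, h]),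
        List.filter_cons_of_pos (by simp [h]), ih, List.map_cons]

/-- States reached after choosing `p` vertices on the left and `q` on the right. -/
structure Good (G : Bip) (p q : ℕ) (I : List (Fin G.a)) (J : List (Fin G.b)) : Prop where
  nI : I.Nodup
  nJ : J.Nodup
  ex : ∃ (S : Finset (Fin G.a)) (T : Finset (Fin G.b)), S.card = p ∧ T.card = q ∧
    (∀ i ∈ I, i ∉ S) ∧ (∀ j ∈ J, j ∉ T) ∧ (∀ i ∈ S, ∀ j ∈ T, G.adj i j = false) ∧
    (∀ i ∈ I, ∀ j ∈ T, G.adj i j = false) ∧ (∀ i ∈ S, ∀ j ∈ J, G.adj i j = false)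

theorem Good.tailL {G : Bip} {p q : ℕ} {i : Fin G.a} {I : List (Fin G.a)} {J : List (Fin G.b)}
    (h : Good G p q (i :: I) J) : Good G p q I J := by
  obtain ⟨h1, h2, S, T, h3, h4, h5, h6, h7, h8, h9⟩ := h
  exact ⟨(List.nodup_cons.1 h1).2, h2, S, T, h3, h4,
    fun x hx => h5 x (List.mem_cons_of_mem _ hx), h6, h7,
    fun x hx => h8 x (List.mem_cons_of_mem _ hx), h9⟩

theorem Good.tailR {G : Bip} {p q : ℕ} {j : Fin G.b} {I : List (Fin G.a)} {J : List (Fin G.b)}
    (h : Good G p q I (j :: J)) : Good G p q I J := by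
  obtain ⟨h1, h2, S, T, h3, h4, h5, h6, h7, h8, h9⟩ := h
  exact ⟨h1, (List.nodup_cons.1 h2).2, S, T, h3, h4, h5,
    fun x hx => h6 x (List.mem_cons_of_mem _ hx), h7, h8,
    fun x hx y hy => h9 x hx y (List.mem_cons_of_mem _ hy)⟩

theorem Good.consL {G : Bip} {p q : ℕ} {i : Fin G.a} {I : List (Fin G.a)} {J : List (Fin G.b)}
    (h : Good G p q (i :: I) J) : Good G (p + 1) q I (J.filter fun j => !(G.adj i j)) := by
  obtain ⟨h1, h2, S, T, h3, h4, h5, h6, h7, h8, h9⟩ := h
  have hi : i ∉ S := h5 i List.mem_cons_self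
  refine ⟨(List.nodup_cons.1 h1).2, h2.filter _, insert i S, T, ?_, h4, ?_, ?_, ?_, ?_, ?_⟩
  · rw [card_insert_of_notMem hi, h3]
  · intro x hx hmem
    rcases mem_insert.1 hmem with h | h
    · exact (List.nodup_cons.1 h1).1 (h ▸ hx)
    · exact h5 x (List.mem_cons_of_mem _ hx) h
  · intro y hy
    exact h6 y (List.mem_of_mem_filter hy)
  · intro x hx y hy
    rcases mem_insert.1 hx with h | h
    · rw [h]; exact h8 i List.mem_cons_self y hy
    · exact h7 x h y hy
  · intro x hx y hy
    exact h8 x (List.mem_cons_of_mem _ hx) y hy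
  · intro x hx y hy
    rcases mem_insert.1 hx with h | h
    · rw [h]
      have := (List.mem_filter.1 hy).2
      simpa using this
    · exact h9 x h y (List.mem_of_mem_filter hy)

theorem Good.consR {G : Bip} {p q : ℕ} {j : Fin G.b} {I : List (Fin G.a)} {J : List (Fin G.b)}
    (h : Good G p q I (j :: J)) : Good G p (q + 1) (I.filter fun i => !(G.adj i j)) J := by
  obtain ⟨h1, h2, S, T, h3, h4, h5, h6, h7, h8, h9⟩ := h
  have hj : j ∉ T := h6 j List.mem_cons_self
  refine ⟨h1.filter _, (List.nodup_cons.1 h2).2, S, insert j T, h3, ?_, ?_, ?_, ?_, ?_, ?_⟩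
  · rw [card_insert_of_notMem hj, h4]
  · intro x hx
    exact h5 x (List.mem_of_mem_filter hx)
  · intro y hy hmem
    rcases mem_insert.1 hmem with h | h
    · exact (List.nodup_cons.1 h2).1 (h ▸ hy)
    · exact h6 y (List.mem_cons_of_mem _ hy) h
  · intro x hx y hy
    rcases mem_insert.1 hy with h | h
    · rw [h]; exact h9 x hx j List.mem_cons_self
    · exact h7 x hx y h
  · intro x hx y hy
    rcases mem_insert.1 hy with h | h
    · rw [h]
      have := (List.mem_filter.1 hx).2
      simpa using this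
    · exact h8 x (List.mem_of_mem_filter hx) y h
  · intro x hx y hy
    exact h9 x hx y (List.mem_cons_of_mem _ hy)

/-- A state of the algorithm which comes from lists of vertices. -/
def GoodSt (G : Bip) (p q : ℕ) (s : St) : Prop :=
  ∃ I J, Good G p q I J ∧ s = (I.map (rowOf G), J.map Fin.val)

theorem goodSt_childL {G : Bip} {p q : ℕ} : ∀ (I : List (Fin G.a)) (J : List (Fin G.b)),
    Good G p q I J → ∀ s ∈ childL (I.map (rowOf G)) (J.map Fin.val), GoodSt G (p + 1) q s
  | [], J, _, s, hs => by simp [childL] at hs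
  | i :: I, J, h, s, hs => by
    rw [List.map_cons, childL, List.mem_cons] at hs
    rcases hs with hs | hs
    · exact ⟨I, _, h.consL, by rw [hs, filter_map_val]⟩
    · exact goodSt_childL I J h.tailL s hs

theorem goodSt_childR {G : Bip} {p q : ℕ} : ∀ (J : List (Fin G.b)) (I : List (Fin G.a)),
    Good G p q I J → ∀ s ∈ childR (I.map (rowOf G)) (J.map Fin.val), GoodSt G p (q + 1) s
  | [], I, _, s, hs => by simp [childR] at hs
  | j :: J, I, h, s, hs => by
    rw [List.map_cons, childR, List.mem_cons] at hs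
    rcases hs with hs | hs
    · exact ⟨_, J, h.consR, by rw [hs, filter_map_row]⟩
    · exact goodSt_childR J I h.tailR s hs

theorem length_childL : ∀ (X : List (List Bool)) (Y : List ℕ), (childL X Y).length = X.length
  | [], _ => rfl
  | u :: X, Y => by rw [childL, List.length_cons, List.length_cons, length_childL X Y]

theorem length_childR : ∀ (X : List (List Bool)) (Y : List ℕ), (childR X Y).length = Y.length
  | _, [] => rfl
  | X, j :: Y => by rw [childR, List.length_cons, List.length_cons, length_childR X Y]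

theorem GoodSt.lenL {G : Bip} {p q : ℕ} {s : St} (h : GoodSt G p q s) : s.1.length ≤ G.a := by
  obtain ⟨I, J, h, rfl⟩ := h
  have := h.nI.length_le_card
  simpa using this

theorem GoodSt.lenR {G : Bip} {p q : ℕ} {s : St} (h : GoodSt G p q s) : s.2.length ≤ G.b := by
  obtain ⟨I, J, h, rfl⟩ := h
  have := h.nJ.length_le_card
  simpa using this

theorem length_flatMap_le {α β : Type} (l : List α) (f : α → List β) (n : ℕ)
    (h : ∀ x ∈ l, (f x).length ≤ n) : (l.flatMap f).length ≤ l.length * n := by
  induction l with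
  | nil => simp
  | cons x l ih =>
    rw [List.flatMap_cons, List.length_append, List.length_cons]
    have h1 := h x List.mem_cons_self
    have h2 := ih fun y hy => h y (List.mem_cons_of_mem _ hy)
    nlinarith

theorem iter_stepL (G : Bip) (n : ℕ) : ∀ (p q : ℕ) (P : List Un × List St),
    (∀ s ∈ P.2, GoodSt G p q s) → (∀ s ∈ (stepL^[n] P).2, GoodSt G (p + n) q s) ∧
      (stepL^[n] P).2.length ≤ P.2.length * G.a ^ n := by
  induction n with
  | zero => intro p q P h; exact ⟨h, by simp⟩
  | succ n ih =>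
    intro p q P h
    have h1 : ∀ s ∈ (stepL P).2, GoodSt G (p + 1) q s := by
      intro s hs
      obtain ⟨s', hs', hs⟩ := List.mem_flatMap.1 hs
      obtain ⟨I, J, hg, rfl⟩ := h s' hs'
      exact goodSt_childL I J hg s hs
    have h2 : (stepL P).2.length ≤ P.2.length * G.a :=
      length_flatMap_le _ _ _ fun s hs => by rw [length_childL]; exact (h s hs).lenL
    obtain ⟨h3, h4⟩ := ih (p + 1) q (stepL P) h1
    rw [Function.iterate_succ_apply]
    refine ⟨?_, h4.trans ?_⟩
    · rw [show p + (n + 1) = p + 1 + n by ring]; exact h3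
    · calc (stepL P).2.length * G.a ^ n ≤ P.2.length * G.a * G.a ^ n :=
            Nat.mul_le_mul_right _ h2
        _ = P.2.length * G.a ^ (n + 1) := by rw [pow_succ]; ring

theorem iter_stepR (G : Bip) (n : ℕ) : ∀ (p q : ℕ) (P : List Un × List St),
    (∀ s ∈ P.2, GoodSt G p q s) → (∀ s ∈ (stepR^[n] P).2, GoodSt G p (q + n) s) ∧
      (stepR^[n] P).2.length ≤ P.2.length * G.b ^ n := by
  induction n with
  | zero => intro p q P h; exact ⟨h, by simp⟩
  | succ n ih =>
    intro p q P h
    have h1 : ∀ s ∈ (stepR P).2, GoodSt G p (q + 1) s := by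
      intro s hs
      obtain ⟨s', hs', hs⟩ := List.mem_flatMap.1 hs
      obtain ⟨I, J, hg, rfl⟩ := h s' hs'
      exact goodSt_childR J I hg s hs
    have h2 : (stepR P).2.length ≤ P.2.length * G.b :=
      length_flatMap_le _ _ _ fun s hs => by rw [length_childR]; exact (h s hs).lenR
    obtain ⟨h3, h4⟩ := ih p (q + 1) (stepR P) h1
    rw [Function.iterate_succ_apply]
    refine ⟨?_, h4.trans ?_⟩
    · rw [show q + (n + 1) = q + 1 + n by ring]; exact h3
    · calc (stepR P).2.length * G.b ^ n ≤ P.2.length * G.b * G.b ^ n :=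
            Nat.mul_le_mul_right _ h2
        _ = P.2.length * G.b ^ (n + 1) := by rw [pow_succ]; ring

theorem phase1_good (G : Bip) (r : ℕ) (B : Un) (hB : B.length = G.b) :
    (∀ s ∈ (phase1 r B (rowsOf G)).2, GoodSt G r r s) ∧
      (phase1 r B (rowsOf G)).2.length ≤ G.a ^ r * G.b ^ r := by
  have h0 : ∀ s ∈ (([], [(rowsOf G, List.range B.length)]) : List Un × List St).2,
      GoodSt G 0 0 s := by
    intro s hs
    simp only [List.mem_singleton] at hs
    refine ⟨List.finRange G.a, List.finRange G.b, ⟨List.nodup_finRange _, List.nodup_finRange _,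
      ∅, ∅, rfl, rfl, by simp, by simp, by simp, by simp, by simp⟩, ?_⟩
    rw [hs, hB]
    congr 1
    simp
  obtain ⟨h1, h2⟩ := iter_stepL G r 0 0 _ h0
  obtain ⟨h3, h4⟩ := iter_stepR G r (0 + r) 0 _ h1
  unfold phase1
  refine ⟨by simpa using h3, h4.trans ?_⟩
  calc _ ≤ (1 * G.a ^ r) * G.b ^ r := Nat.mul_le_mul_right _ (by simpa using h2)
    _ = G.a ^ r * G.b ^ r := by ring

theorem GoodSt.small {G : Bip} {r C : ℕ} (hG : G.Expands r C) {s : St} (h : GoodSt G r r s) :
    s.1.length + s.2.length ≤ max G.a G.b + C * Nat.log 2 (G.a + G.b) := by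
  obtain ⟨I, J, ⟨h1, h2, S, T, h3, h4, _, _, h7, h8, h9⟩, rfl⟩ := h
  have hE := hG S T h3 h4 h7
  have e1 : I.length + (G.nbL T).card ≤ G.a := by
    have hd : Disjoint I.toFinset (G.nbL T) := by
      rw [disjoint_left]
      intro i hi hi'
      simp only [Bip.nbL, mem_filter, mem_univ, true_and] at hi'
      obtain ⟨j, hj, hadj⟩ := hi'
      rw [h8 i (List.mem_toFinset.1 hi) j hj] at hadj
      exact Bool.false_ne_true hadj
    have := card_union_of_disjoint hd
    rw [List.toFinset_card_of_nodup h1] at this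
    rw [← this]
    exact (card_le_univ _).trans (by simp)
  have e2 : J.length + (G.nbR S).card ≤ G.b := by
    have hd : Disjoint J.toFinset (G.nbR S) := by
      rw [disjoint_left]
      intro j hj hj'
      simp only [Bip.nbR, mem_filter, mem_univ, true_and] at hj'
      obtain ⟨i, hi, hadj⟩ := hj'
      rw [h9 i hi j (List.mem_toFinset.1 hj)] at hadj
      exact Bool.false_ne_true hadj
    have := card_union_of_disjoint hd
    rw [List.toFinset_card_of_nodup h2] at this
    rw [← this]
    exact (card_le_univ _).trans (by simp)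
  simp only [List.length_map]
  omega

/-- The error bound of the algorithm. -/
theorem alg_good (G : Bip) (r C : ℕ) (T B : Un) (hB : B.length = G.b) (hG : G.Expands r C) :
    T.length * (cnt (rowsOf G) (List.range B.length) - alg r C T B (rowsOf G)) ≤
      cnt (rowsOf G) (List.range B.length) := by
  obtain ⟨h1, h2⟩ := phase1_good G r B hB
  have h3 := alg_err r C T B (rowsOf G) _ fun s hs => (h1 s hs).small hG
  set d := (budget r C T B (rowsOf G)).length with hd
  set K := cnt (rowsOf G) (List.range B.length) with hK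
  set A := alg r C T B (rowsOf G) with hA
  have hAK : A ≤ K := alg_le r C T B (rowsOf G)
  have hlen : (rowsOf G).length = G.a := by simp [rowsOf]
  set k := T.length.size + (2 * r + C) * (G.a + G.b + 1).size with hk
  have hdk : d = 3 * k := by
    rw [hd, hk]
    unfold budget
    rw [List.length_append, rep_length, rep_length, Nat.size_eq_bits_len, Nat.size_eq_bits_len,
      hlen, hB]
    ring
  -- the maximum side is counted
  have hmax : 2 ^ max G.a G.b ≤ K := by
    rcases le_total G.a G.b with h | h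
    · rw [max_eq_right h]
      have := cnt_ge_right (rowsOf G) (List.range B.length)
      rw [List.length_range] at this
      rw [← hB]
      exact this
    · rw [max_eq_left h]
      have := cnt_ge_left (rowsOf G) (List.range B.length)
      rwa [hlen] at this
  have hlog : 2 ^ (C * Nat.log 2 (G.a + G.b)) ≤ (G.a + G.b + 1) ^ C := by
    rw [mul_comm, pow_mul]
    refine Nat.pow_le_pow_left ?_ _
    rcases Nat.eq_zero_or_pos (G.a + G.b) with h | h
    · rw [h]; simp
    · exact (Nat.pow_log_le_self 2 (by omega)).trans (by omega)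
  have hn : (phase1 r B (rowsOf G)).2.length ≤ (G.a + G.b + 1) ^ (2 * r) := by
    refine h2.trans ?_
    calc G.a ^ r * G.b ^ r ≤ (G.a + G.b + 1) ^ r * (G.a + G.b + 1) ^ r :=
          Nat.mul_le_mul (Nat.pow_le_pow_left (by omega) _) (Nat.pow_le_pow_left (by omega) _)
      _ = (G.a + G.b + 1) ^ (2 * r) := by rw [← pow_add]; ring_nf
  have hpow : T.length * (G.a + G.b + 1) ^ (2 * r + C) ≤ 2 ^ k := by
    have e : 2 ^ k = 2 ^ T.length.size * (2 ^ (G.a + G.b + 1).size) ^ (2 * r + C) := by
      rw [hk, pow_add, ← pow_mul]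
      congr 2
      ring
    rw [e]
    exact Nat.mul_le_mul (Nat.lt_size_self _).le
      (Nat.pow_le_pow_left (Nat.lt_size_self _).le _)
  have h43 : 2 ^ k * 3 ^ d ≤ 4 ^ d := by
    rw [hdk, pow_mul, pow_mul, ← mul_pow]
    exact Nat.pow_le_pow_left (by norm_num) _
  have h4 : 4 ^ d * (K - A) ≤
      3 ^ d * (phase1 r B (rowsOf G)).2.length *
        2 ^ (max G.a G.b + C * Nat.log 2 (G.a + G.b)) := by
    rw [Nat.mul_sub]
    omega
  have h5 : 4 ^ d * (T.length * (K - A)) ≤ 4 ^ d * K := by
    calc 4 ^ d * (T.length * (K - A)) = T.length * (4 ^ d * (K - A)) := by ring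
      _ ≤ T.length * (3 ^ d * (phase1 r B (rowsOf G)).2.length *
          2 ^ (max G.a G.b + C * Nat.log 2 (G.a + G.b))) := Nat.mul_le_mul_left _ h4
      _ ≤ T.length * (3 ^ d * (G.a + G.b + 1) ^ (2 * r) * (K * (G.a + G.b + 1) ^ C)) := by
          refine Nat.mul_le_mul_left _ (Nat.mul_le_mul (Nat.mul_le_mul_left _ hn) ?_)
          rw [pow_add]
          exact Nat.mul_le_mul hmax hlog
      _ = (T.length * (G.a + G.b + 1) ^ (2 * r + C)) * 3 ^ d * K := by rw [pow_add]; ring
      _ ≤ 2 ^ k * 3 ^ d * K := Nat.mul_le_mul_right _ (Nat.mul_le_mul_right _ hpow)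
      _ ≤ 4 ^ d * K := Nat.mul_le_mul_right _ h43
  exact Nat.le_of_mul_le_mul_left h5 (by positivity)

end Pool.Agent.BisTh
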