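import Pool.Agent.BisTh.Red

/-!
# The two reductions: degrees and counts
-/

set_option autoImplicit false

namespace Pool.Agent.BisTh

theorem length_rowsB (c : ℕ) (T B : Un) (X : List (List Bool)) :
    (rowsB c T B X).length = (kB c T B X).length + (prB c T B X).length + B.length := by
  unfold rowsB
  simp only [List.length_append, List.length_map, plB, prB, un_length, List.length_singleton]
  omega

theorem mem_rowsB {c : ℕ} {T B : Un} {X : List (List Bool)} (hX : ∀ u ∈ X, u.length = B.length)
    {v : List Bool} (hv : v ∈ rowsB c T B X) :
    ∃ w, v = cst true (kB c T B X) ++ w ∧ w.length = (prB c T B X).length + B.length := by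
  unfold rowsB at hv
  rw [List.mem_append, List.mem_append] at hv
  rcases hv with hv | hv | hv
  · obtain ⟨_, _, rfl⟩ := List.mem_map.1 hv
    exact ⟨_, List.append_assoc _ _ _, by rw [List.length_append, cst_length, cst_length]⟩
  · obtain ⟨_, _, rfl⟩ := List.mem_map.1 hv
    exact ⟨_, List.append_assoc _ _ _, by rw [List.length_append, cst_length, cst_length]⟩
  · obtain ⟨u, hu, rfl⟩ := List.mem_map.1 hv
    exact ⟨_, List.append_assoc _ _ _, by rw [List.length_append, cst_length, hX u hu]⟩

/-- The graph of the first reduction. -/
def gB (c : ℕ) (T B : Un) (X : List (List Bool)) : Bip :=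
  ofRows ((kB c T B X).length + (prB c T B X).length + B.length) (rowsB c T B X)

theorem getD_cst_true (l : Un) (w : List Bool) (j : ℕ) (h : j < l.length) :
    (cst true l ++ w).getD j false = true := by
  have h1 := nadj_append_left (cst true l) w j (by rw [cst_length]; exact h)
  rw [nadj_cst true l j h] at h1
  unfold nadj at h1
  simpa using h1

theorem nearHalf_gB (c : ℕ) (T B : Un) (X : List (List Bool))
    (hX : ∀ u ∈ X, u.length = B.length) : (gB c T B X).NearHalf c := by
  set K := (kB c T B X).length with hK
  have hlen := length_rowsB c T B X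
  have hKM : K = (mB T B X).length ^ c := by rw [hK]; unfold kB; rw [pw_length]
  have hM : (mB T B X).length = T.length + B.length + X.length + 1 := by
    unfold mB
    simp only [List.length_append, un_length, List.length_singleton]
  have hPR : (prB c T B X).length = K + X.length + T.length + 1 := by
    unfold prB
    simp only [List.length_append, un_length, List.length_singleton, ← hK]
  have hN : (gB c T B X).a = 2 * K + (mB T B X).length := by
    show (rowsB c T B X).length = _
    rw [hlen, ← hK, hPR, hM]
    ring
  have hN' : (gB c T B X).b = 2 * K + (mB T B X).length := by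
    show (kB c T B X).length + (prB c T B X).length + B.length = _
    rw [← hK, hPR, hM]
    ring
  have hdegL : ∀ i, K ≤ (gB c T B X).degL i := by
    intro i
    have h1 := le_degL (gB c T B X) i (Finset.univ.filter fun j => j.val < K) (by
      intro j hj
      simp only [Finset.mem_filter, Finset.mem_univ, true_and] at hj
      obtain ⟨w, hw, _⟩ := mem_rowsB hX (List.getElem_mem i.2)
      have h0 : (gB c T B X).adj i j = ((rowsB c T B X)[i.val]'i.2).getD j.val false := rfl
      rw [h0, hw]
      exact getD_cst_true _ _ _ hj)
    rwa [card_lt _ _ (by omega)] at h1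
  have hdegR : ∀ j, K ≤ (gB c T B X).degR j := by
    intro j
    have h1 := le_degR (gB c T B X) j (Finset.univ.filter fun i => i.val < K) (by
      intro i hi
      simp only [Finset.mem_filter, Finset.mem_univ, true_and] at hi
      have h0 : (gB c T B X).adj i j = ((rowsB c T B X)[i.val]'i.2).getD j.val false := rfl
      rw [h0]
      have h2 : (rowsB c T B X)[i.val]'i.2 =
          cst true (kB c T B X ++ prB c T B X ++ B) ++ [] := by
        unfold rowsB
        rw [List.getElem_append_left (by rw [List.length_map]; exact hi), List.getElem_map,
          cst_append, cst_append, List.append_nil]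
      rw [h2]
      refine getD_cst_true _ _ _ ?_
      have h3 : j.val < (kB c T B X).length + (prB c T B X).length + B.length := j.2
      rw [List.length_append, List.length_append]
      exact h3)
    rwa [card_lt _ _ (by omega)] at h1
  have hbound : ∀ d, K ≤ d → ((gB c T B X).a - 2 * d) ^ c ≤ (gB c T B X).a := by
    intro d hd
    calc ((gB c T B X).a - 2 * d) ^ c ≤ (mB T B X).length ^ c :=
          Nat.pow_le_pow_left (by omega) _
      _ = K := hKM.symm
      _ ≤ (gB c T B X).a := by omega
  exact ⟨by rw [hN, hN'], fun i => hbound _ (hdegL i), fun j => hbound _ (hdegR j)⟩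

theorem count_gB (c : ℕ) (T B : Un) (X : List (List Bool)) (hX : ∀ u ∈ X, u.length = B.length) :
    2 ^ ((plB c T B X).length + (prB c T B X).length) * cnt X (List.range B.length) ≤
      (gB c T B X).count ∧
    2 ^ T.length * ((gB c T B X).count -
      2 ^ ((plB c T B X).length + (prB c T B X).length) * cnt X (List.range B.length)) ≤
      2 ^ ((plB c T B X).length + (prB c T B X).length) := by
  have h1 := cnt_rowsB c T B X
  have h2 : (gB c T B X).count = cnt (rowsB c T B X)
      (List.range ((kB c T B X).length + (prB c T B X).length + B.length)) := by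
    refine count_ofRows _ _ fun v hv => ?_
    obtain ⟨w, rfl, hw⟩ := mem_rowsB hX hv
    rw [List.length_append, cst_length, hw]
    ring
  rw [← h2] at h1
  set q := 2 ^ ((plB c T B X).length + (prB c T B X).length) * cnt X (List.range B.length) with hq
  have h3 : 2 ^ ((prB c T B X).length + B.length) ≤
      2 ^ ((kB c T B X).length + ((prB c T B X).length + B.length)) :=
    Nat.pow_le_pow_right (by norm_num) (by omega)
  have h4 : (plB c T B X).length = (kB c T B X).length + B.length + T.length + 1 := by
    unfold plB
    simp only [List.length_append, List.length_singleton]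
  refine ⟨by omega, ?_⟩
  have h5 : (gB c T B X).count - q ≤
      2 * 2 ^ ((kB c T B X).length + ((prB c T B X).length + B.length)) := by omega
  refine (Nat.mul_le_mul_left _ h5).trans (le_of_eq ?_)
  rw [h4, ← pow_succ', ← pow_add]
  congr 1
  ring

/-! ### Second reduction -/

/-- The common size of the four parts. -/
def mC (B : Un) (X : List (List Bool)) : Un := B ++ un X

/-- The rows of the second reduction. -/
def rowsC (B : Un) (X : List (List Bool)) : List (List Bool) :=
  (mC B X).map (fun _ => cst false (mC B X) ++ cst true (mC B X)) ++
  (B.map (fun _ => cst true (mC B X) ++ cst false (mC B X)) ++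
  X.map (fun u => cst true (mC B X) ++ cst false (un X) ++ u))

theorem length_rowsC (B : Un) (X : List (List Bool)) :
    (rowsC B X).length = (mC B X).length + X.length + B.length := by
  unfold rowsC
  simp only [List.length_append, List.length_map]
  omega

theorem cnt_rowsC (B : Un) (X : List (List Bool)) :
    cnt (rowsC B X) (List.range ((mC B X).length + X.length + B.length)) +
      4 * 2 ^ (mC B X).length =
    2 ^ (mC B X).length * cnt X (List.range B.length) + 3 * 4 ^ (mC B X).length + 1 := by
  set M := mC B X with hM
  have hMlen : M.length = B.length + X.length := by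
    rw [hM]; simp only [mC, List.length_append, un_length]
  set l2 := cst false M ++ cst true M with hl2
  set iso := cst true M ++ cst false M with hiso
  set pre := cst true M ++ cst false (un X) with hpre
  have hprelen : pre.length = M.length + X.length := by
    rw [hpre, List.length_append, cst_length, cst_length, un_length]
  have hrows : rowsC B X = List.replicate M.length l2 ++
      (List.replicate B.length iso ++ X.map fun u => pre ++ u) := by
    unfold rowsC
    rw [map_const_eq, map_const_eq]
  set Z := List.replicate B.length iso ++ X.map fun u => pre ++ u with hZ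
  have hZlen : Z.length = M.length := by
    rw [hZ, List.length_append, List.length_replicate, List.length_map, hMlen]
  have hY := range_three M.length X.length B.length
  set Y1 := List.range M.length with hY1
  set Y2 := (List.range X.length).map (fun j => M.length + j) with hY2
  set Y3 := (List.range B.length).map (fun j => M.length + X.length + j) with hY3
  have hY1len : Y1.length = M.length := by simp [hY1]
  have hY2len : Y2.length = X.length := by simp [hY2]
  have hY23len : (Y2 ++ Y3).length = M.length := by
    simp [hY2, hY3, hMlen, Nat.add_comm]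
  have hmem : ∀ j ∈ Y2 ++ Y3, ∃ m, m < M.length ∧ j = M.length + m := by
    intro j hj
    rw [List.mem_append] at hj
    rcases hj with hj | hj
    · obtain ⟨m, hm, rfl⟩ := List.mem_map.1 hj
      rw [List.mem_range] at hm
      exact ⟨m, by omega, rfl⟩
    · obtain ⟨m, hm, rfl⟩ := List.mem_map.1 hj
      rw [List.mem_range] at hm
      exact ⟨X.length + m, by omega, by omega⟩
  -- the rows of the second block
  have e1 : (Y1 ++ (Y2 ++ Y3)).filter (nadj l2) = Y1 := by
    rw [List.filter_append]
    have f1 : Y1.filter (nadj l2) = Y1 := by
      rw [List.filter_eq_self]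
      intro j hj
      rw [hY1, List.mem_range] at hj
      rw [hl2, nadj_append_left _ _ _ (by rw [cst_length]; exact hj), nadj_cst _ _ _ hj]
      rfl
    have f2 : (Y2 ++ Y3).filter (nadj l2) = [] := by
      rw [List.filter_eq_nil_iff]
      intro j hj
      obtain ⟨m, hm, rfl⟩ := hmem j hj
      have := nadj_append_right (cst false M) (cst true M) m
      rw [cst_length] at this
      rw [hl2, this, nadj_cst _ _ _ hm]
      simp
    rw [f1, f2, List.append_nil]
  have a1 := cnt_replicate l2 Z M.length (Y1 ++ (Y2 ++ Y3))
  rw [e1] at a1
  have e2 : ∀ j ∈ Y1, (Z.filter fun u => nadj u j) = [] := by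
    intro j hj
    rw [hY1, List.mem_range] at hj
    rw [List.filter_eq_nil_iff]
    intro u hu
    have hu' : ∃ v, u = cst true M ++ v := by
      rw [hZ, List.mem_append] at hu
      rcases hu with hu | hu
      · exact ⟨cst false M, by rw [List.eq_of_mem_replicate hu]⟩
      · obtain ⟨v, _, rfl⟩ := List.mem_map.1 hu
        exact ⟨cst false (un X) ++ v, by rw [hpre, List.append_assoc]⟩
    obtain ⟨v, rfl⟩ := hu'
    rw [nadj_append_left _ _ _ (by rw [cst_length]; exact hj), nadj_cst _ _ _ hj]
    simp
  have a2 := cnt_columns Z [] Y1 (Y2 ++ Y3) e2
  rw [cnt, hY1len, hY23len] at a2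
  have a6 := cnt_columns Z [] Y1 [] e2
  rw [List.append_nil, cnt_nil_right, cnt_nil_right, hY1len, hZlen, List.length_nil, pow_zero]
    at a6
  -- isolated rows
  have e3 : (Y2 ++ Y3).filter (nadj iso) = Y2 ++ Y3 := by
    rw [List.filter_eq_self]
    intro j hj
    obtain ⟨m, hm, rfl⟩ := hmem j hj
    have := nadj_append_right (cst true M) (cst false M) m
    rw [cst_length] at this
    rw [hiso, this, nadj_cst _ _ _ hm]
    rfl
  have a3 := cnt_replicate iso (X.map fun u => pre ++ u) B.length (Y2 ++ Y3)
  rw [e3] at a3
  have e4 : ∀ j ∈ Y2, ((X.map fun u => pre ++ u).filter fun u => nadj u j) =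
      X.map fun u => pre ++ u := by
    intro j hj
    obtain ⟨m, hm, rfl⟩ := List.mem_map.1 hj
    rw [List.mem_range] at hm
    rw [List.filter_eq_self]
    intro u hu
    obtain ⟨v, _, rfl⟩ := List.mem_map.1 hu
    rw [nadj_append_left _ _ _ (by rw [hprelen]; omega), hpre]
    have := nadj_append_right (cst true M) (cst false (un X)) m
    rw [cst_length] at this
    rw [this, nadj_cst _ _ _ (by rw [un_length]; exact hm)]
    rfl
  have a4 := cnt_columns (X.map fun u => pre ++ u) _ Y2 Y3 e4
  have a5 := cnt_shift pre X (List.range B.length)
  rw [hprelen] at a5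
  rw [hY2len, a5] at a4
  rw [hrows, hY]
  rw [← hZ] at a3
  set q := cnt X (List.range B.length) with hq
  have b4 : cnt (X.map fun u => pre ++ u) (Y2 ++ Y3) = 2 ^ X.length * q := by omega
  have b3 : cnt Z (Y2 ++ Y3) = 2 ^ M.length * q := by
    rw [b4] at a3
    rw [hMlen, pow_add, mul_assoc]
    omega
  rw [b3] at a2
  have h4 : 4 ^ M.length = 2 ^ M.length * 2 ^ M.length := by
    rw [← mul_pow]
    norm_num
  rw [h4]
  set w := 2 ^ M.length with hw
  have hw1 : 1 ≤ w := Nat.one_le_two_pow
  have b6 : cnt Z Y1 = 2 * w - 1 := by omega
  have b7 : cnt Z Y1 + 1 = 2 * w := by omega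
  nlinarith

/-- The graph of the second reduction. -/
def gC (B : Un) (X : List (List Bool)) : Bip :=
  ofRows ((mC B X).length + X.length + B.length) (rowsC B X)

theorem mem_rowsC {B : Un} {X : List (List Bool)} (hX : ∀ u ∈ X, u.length = B.length)
    {v : List Bool} (hv : v ∈ rowsC B X) :
    v.length = (mC B X).length + X.length + B.length := by
  have hMlen : (mC B X).length = B.length + X.length := by
    simp only [mC, List.length_append, un_length]
  unfold rowsC at hv
  rw [List.mem_append, List.mem_append] at hv
  rcases hv with hv | hv | hv
  · obtain ⟨_, _, rfl⟩ := List.mem_map.1 hv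
    rw [List.length_append, cst_length, cst_length]
    omega
  · obtain ⟨_, _, rfl⟩ := List.mem_map.1 hv
    rw [List.length_append, cst_length, cst_length]
    omega
  · obtain ⟨u, hu, rfl⟩ := List.mem_map.1 hv
    rw [List.length_append, List.length_append, cst_length, cst_length, un_length, hX u hu]

theorem half_gC (B : Un) (X : List (List Bool)) :
    (gC B X).Half := by
  have hlen := length_rowsC B X
  have hMlen : (mC B X).length = B.length + X.length := by
    simp only [mC, List.length_append, un_length]
  set M := (mC B X).length with hM
  have hN : (gC B X).a = 2 * M := by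
    show (rowsC B X).length = _
    rw [hlen]; omega
  have hN' : (gC B X).b = 2 * M := by
    show (mC B X).length + X.length + B.length = _
    omega
  have hlow : ∀ (i : ℕ) (hi : i < (rowsC B X).length), i < M →
      (rowsC B X)[i] = cst false (mC B X) ++ cst true (mC B X) := by
    intro i hi hiM
    unfold rowsC
    rw [List.getElem_append_left (by rw [List.length_map]; exact hiM), List.getElem_map]
  have hhigh : ∀ (i : ℕ) (hi : i < (rowsC B X).length), M ≤ i →
      ∃ w, (rowsC B X)[i] = cst true (mC B X) ++ w := by
    intro i hi hiM
    have h1 : (rowsC B X)[i] ∈ (B.map (fun _ => cst true (mC B X) ++ cst false (mC B X)) ++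
        X.map (fun u => cst true (mC B X) ++ cst false (un X) ++ u)) := by
      unfold rowsC
      rw [List.getElem_append_right (by rw [List.length_map]; exact hiM)]
      exact List.getElem_mem _
    rw [List.mem_append] at h1
    rcases h1 with h1 | h1
    · obtain ⟨_, _, h2⟩ := List.mem_map.1 h1
      exact ⟨_, h2.symm⟩
    · obtain ⟨u, _, h2⟩ := List.mem_map.1 h1
      exact ⟨cst false (un X) ++ u, by rw [← h2, List.append_assoc]⟩
  have hl2 : ∀ j, M ≤ j → j < 2 * M →
      (cst false (mC B X) ++ cst true (mC B X)).getD j false = true := by
    intro j h1 h2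
    have h3 := nadj_append_right (cst false (mC B X)) (cst true (mC B X)) (j - M)
    rw [cst_length, ← hM, Nat.add_sub_cancel' h1, nadj_cst _ _ _ (by omega)] at h3
    unfold nadj at h3
    simpa using h3
  refine ⟨by rw [hN, hN'], fun i => ?_, fun j => ?_⟩
  · rw [hN]
    refine Nat.mul_le_mul_left _ ?_
    by_cases hi : i.val < M
    · have h1 := le_degL (gC B X) i (Finset.univ.filter fun j => M ≤ j.val) (by
        intro j hj
        simp only [Finset.mem_filter, Finset.mem_univ, true_and] at hj
        have h0 : (gC B X).adj i j = ((rowsC B X)[i.val]'i.2).getD j.val false := rfl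
        rw [h0, hlow i.val i.2 hi]
        exact hl2 _ hj (by have := j.2; omega))
      exact (card_ge _ _ _ (by omega)).trans h1
    · have h1 := le_degL (gC B X) i (Finset.univ.filter fun j => j.val < M) (by
        intro j hj
        simp only [Finset.mem_filter, Finset.mem_univ, true_and] at hj
        have h0 : (gC B X).adj i j = ((rowsC B X)[i.val]'i.2).getD j.val false := rfl
        obtain ⟨w, hw⟩ := hhigh i.val i.2 (by omega)
        rw [h0, hw]
        exact getD_cst_true _ _ _ hj)
      rwa [card_lt _ _ (by omega)] at h1
  · rw [hN]
    refine Nat.mul_le_mul_left _ ?_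
    by_cases hj : j.val < M
    · have h1 := le_degR (gC B X) j (Finset.univ.filter fun i => M ≤ i.val) (by
        intro i hi
        simp only [Finset.mem_filter, Finset.mem_univ, true_and] at hi
        have h0 : (gC B X).adj i j = ((rowsC B X)[i.val]'i.2).getD j.val false := rfl
        obtain ⟨w, hw⟩ := hhigh i.val i.2 hi
        rw [h0, hw]
        exact getD_cst_true _ _ _ hj)
      exact (card_ge _ _ _ (by omega)).trans h1
    · have h1 := le_degR (gC B X) j (Finset.univ.filter fun i => i.val < M) (by
        intro i hi
        simp only [Finset.mem_filter, Finset.mem_univ, true_and] at hi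
        have h0 : (gC B X).adj i j = ((rowsC B X)[i.val]'i.2).getD j.val false := rfl
        rw [h0, hlow i.val i.2 hi]
        exact hl2 _ (by omega) (by have := j.2; omega))
      rwa [card_lt _ _ (by omega)] at h1

theorem count_gC (B : Un) (X : List (List Bool)) (hX : ∀ u ∈ X, u.length = B.length) :
    (gC B X).count + 4 * 2 ^ (X.length + B.length) =
      2 ^ (X.length + B.length) * cnt X (List.range B.length) + 3 * 4 ^ (X.length + B.length) + 1 := by
  have h1 := cnt_rowsC B X
  have hMlen : (mC B X).length = X.length + B.length := by
    simp only [mC, List.length_append, un_length]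
    ring
  have h2 : (gC B X).count = cnt (rowsC B X)
      (List.range ((mC B X).length + X.length + B.length)) :=
    count_ofRows _ _ fun v hv => mem_rowsC hX hv
  rw [← h2, hMlen] at h1
  exact h1

end Pool.Agent.BisTh
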