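import Pool.Agent.PT.Gen
import Pool.Agent.PT.Core
import Pool.Agent.BisTh.AlgoPT
import Pool.Agent.BisTh.Red2

/-!
# Encodings, machines and the main theorem
-/

set_option autoImplicit false

namespace Pool.Agent.BisTh

open Pool.Agent.PT

/-! ### Reading -/

/-- Number of a letter. -/
def Letter.idx : Letter → ℕ
  | .one => 0
  | .stop => 1
  | .row => 2
  | .b0 => 3
  | .b1 => 4

instance : Dat Letter := ⟨fun c => D.un c.idx, fun a b h => by
  have := D.un_inj h
  cases a <;> cases b <;> simp [Letter.idx] at this ⊢⟩

/-- One step of the reader: digits read, unary numbers read, rows read (both reversed). -/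
def rstep (s : Un × List Un × List (List Bool)) (c : Letter) : Un × List Un × List (List Bool) :=
  cond (decide (c = Letter.one)) (true :: s.1, s.2.1, s.2.2)
    (cond (decide (c = Letter.stop)) ([], s.1 :: s.2.1, s.2.2)
      (cond (decide (c = Letter.b0)) (false :: s.1, s.2.1, s.2.2)
        (cond (decide (c = Letter.b1)) (true :: s.1, s.2.1, s.2.2)
          ([], s.2.1, s.1.reverse :: s.2.2))))

/-- The reader. -/
def read (w : List Letter) : Un × List Un × List (List Bool) := w.foldl rstep ([], [], [])

/-- The input read from a word. -/
def parse (w : List Letter) : In :=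
  ((read w).2.1.tail.headD [], (read w).2.1.headD [], (read w).2.2.reverse)

/-- A word for a number of right vertices and rows. -/
def encRows (B : Un) (R : List (List Bool)) : List Letter :=
  (B.map (fun _ => Letter.one) ++ [Letter.stop]) ++
    R.flatMap fun u => u.map Letter.ofBool ++ [Letter.row]

theorem encUnary_eq (B : Un) : encUnary B.length = B.map (fun _ => Letter.one) ++ [Letter.stop] := by
  unfold encUnary
  congr 1
  induction B with
  | nil => rfl
  | cons c B ih => rw [List.length_cons, List.replicate_succ, List.map_cons, ih]

theorem encBip_eq (G : Bip) (B : Un) (hB : B.length = G.b) : encBip G = encRows B (rowsOf G) := by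
  unfold encBip encRows
  rw [← encUnary_eq, hB]
  congr 1
  unfold rowsOf
  rw [List.flatMap_map]
  refine List.flatMap_congr fun i _ => ?_
  unfold rowOf
  rw [List.map_map]
  rfl

theorem read_unary (n : ℕ) (o : Un) (U : List Un) (R : List (List Bool)) :
    (encUnary n).foldl rstep (o, U, R) = ([], (List.replicate n true ++ o) :: U, R) := by
  unfold encUnary
  induction n generalizing o with
  | zero => simp [rstep]
  | succ n ih =>
    rw [List.replicate_succ, List.cons_append, List.foldl_cons]
    have : rstep (o, U, R) Letter.one = (true :: o, U, R) := by simp [rstep]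
    rw [this, ih]
    congr 2
    rw [List.replicate_succ', List.append_assoc]
    rfl

theorem read_bits (l : List Bool) (o : Un) (U : List Un) (R : List (List Bool)) :
    (l.map Letter.ofBool).foldl rstep (o, U, R) = (l.reverse ++ o, U, R) := by
  induction l generalizing o with
  | nil => rfl
  | cons b l ih =>
    rw [List.map_cons, List.foldl_cons]
    have : rstep (o, U, R) (Letter.ofBool b) = (b :: o, U, R) := by
      cases b <;> simp [rstep, Letter.ofBool]
    rw [this, ih]
    simp

theorem read_rows (l : List (List Bool)) (U : List Un) (R : List (List Bool)) :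
    (l.flatMap fun u => u.map Letter.ofBool ++ [Letter.row]).foldl rstep ([], U, R) =
      ([], U, l.reverse ++ R) := by
  induction l generalizing R with
  | nil => rfl
  | cons u l ih =>
    rw [List.flatMap_cons, List.foldl_append, List.foldl_append, read_bits, List.foldl_cons,
      List.foldl_nil]
    have : rstep (u.reverse ++ [], U, R) Letter.row = ([], U, u :: R) := by
      simp [rstep]
    rw [this, ih]
    simp

theorem parse_encBip (G : Bip) :
    parse (encBip G) = ([], List.replicate G.b true, rowsOf G) := by
  have h : read (encBip G) = ([], [List.replicate G.b true], (rowsOf G).reverse) := by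
    rw [encBip_eq G (List.replicate G.b true) (by simp)]
    unfold encRows
    rw [← encUnary_eq, List.length_replicate]
    unfold read
    rw [List.foldl_append, read_unary, read_rows]
    simp
  unfold parse
  rw [h]
  simp

theorem parse_encInput (x : Bip × ℕ) :
    parse (encInput x) = (List.replicate x.2 true, List.replicate x.1.b true, rowsOf x.1) := by
  have h : read (encInput x) =
      ([], [List.replicate x.1.b true, List.replicate x.2 true], (rowsOf x.1).reverse) := by
    unfold encInput
    rw [encBip_eq x.1 (List.replicate x.1.b true) (by simp)]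
    unfold encRows
    rw [← encUnary_eq, List.length_replicate]
    unfold read
    rw [List.foldl_append, read_unary, List.foldl_append, read_unary, read_rows]
    simp
  unfold parse
  rw [h]
  simp

theorem rowsOf_inj {G G' : Bip} (hb : G.b = G'.b) (h : rowsOf G = rowsOf G') : G = G' := by
  obtain ⟨a, b, adj⟩ := G
  obtain ⟨a', b', adj'⟩ := G'
  simp only at hb
  subst hb
  have ha : a = a' := by
    have := congrArg List.length h
    simpa [rowsOf] using this
  subst ha
  have : adj = adj' := by
    funext i j
    have h1 : rowOf ⟨a, b, adj⟩ i = rowOf ⟨a, b, adj'⟩ i := by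
      have h2 := congrArg (fun l => l[i.val]?) h
      simpa [rowsOf] using h2
    have h3 := nadj_rowOf ⟨a, b, adj⟩ i j
    have h4 := nadj_rowOf ⟨a, b, adj'⟩ i j
    rw [h1, h4] at h3
    simpa using h3.symm
  rw [this]

theorem encBip_injective : Function.Injective encBip := by
  intro G G' h
  have h1 := parse_encBip G
  rw [h, parse_encBip] at h1
  simp only [Prod.mk.injEq, true_and] at h1
  have hb : G.b = G'.b := by
    have := congrArg List.length h1.1
    simpa using this.symm
  exact rowsOf_inj hb h1.2.symm

theorem encInput_injective : Function.Injective encInput := by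
  rintro ⟨G, t⟩ ⟨G', t'⟩ h
  have h1 := parse_encInput (G, t)
  rw [h, parse_encInput] at h1
  simp only [Prod.mk.injEq] at h1
  have ht : t = t' := by
    have := congrArg List.length h1.1
    simpa using this.symm
  have hb : G.b = G'.b := by
    have := congrArg List.length h1.2.1
    simpa using this.symm
  rw [ht, rowsOf_inj hb h1.2.2.symm]

theorem encNat_injective : Function.Injective encNat := by
  intro m n h
  rw [← val_bits m, ← val_bits n]
  exact congrArg val h

section

variable {γ : Type} [Dat γ] [hC : Fact Core]

@[fun_prop] theorem eq_letter {f g : γ → Letter} (hf : PolyF f) (hg : PolyF g) :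
    PolyF (fun x => decide (f x = g x)) := PolyF.eq hf hg

@[fun_prop] theorem ofBool_pt {f : γ → Bool} (hf : PolyF f) :
    PolyF (fun x => Letter.ofBool (f x)) := by
  unfold Letter.ofBool
  fun_prop

theorem read_pt : PolyF read := by
  unfold read
  refine PolyF.foldl (f := fun (_ : List Letter) s c => rstep s c) ?_ (by fun_prop) (by fun_prop)
    (fun w => 8 * sz w + 10) (((PolyB.const 8).mul PolyB.sz).add (PolyB.const 10)) ?_
  · unfold rstep
    fun_prop
  · intro w l₁ hl₁
    have key : ∀ (l : List Letter) (s : Un × List Un × List (List Bool)),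
        sz (l.foldl (fun s c => rstep s c) s) ≤ sz s + 4 * l.length := by
      intro l
      induction l with
      | nil => intro s; simp
      | cons c l ih =>
        intro s
        rw [List.foldl_cons]
        refine (ih _).trans ?_
        have h1 : sz (rstep s c) ≤ sz s + 4 := by
          obtain ⟨o, U, R⟩ := s
          have e1 : sz false = 1 := rfl
          have e2 : sz true = 3 := rfl
          have e3 := sz_pos o
          have e4 := sz_reverse o
          have e5 : sz ([] : List Bool) = 1 := rfl
          unfold rstep
          cases decide (c = Letter.one) <;> cases decide (c = Letter.stop) <;>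
            cases decide (c = Letter.b0) <;> cases decide (c = Letter.b1) <;>
            simp only [cond_true, cond_false, sz_pair, sz_cons] <;> omega
        rw [List.length_cons]
        omega
    have h1 := key l₁ ([], [], [])
    have h2 := length_lt_sz l₁
    have h3 := sz_le_of_prefix hl₁
    have h4 : sz (([], [], []) : Un × List Un × List (List Bool)) = 5 := rfl
    omega

theorem parse_pt : PolyF parse := by
  have h := read_pt (hC := hC)
  unfold parse
  fun_prop

@[fun_prop] theorem encRows_pt {B : γ → Un} {R : γ → List (List Bool)} (hB : PolyF B)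
    (hR : PolyF R) : PolyF (fun x => encRows (B x) (R x)) := by
  unfold encRows
  fun_prop

@[fun_prop] theorem cst_pt (v : Bool) {l : γ → Un} (hl : PolyF l) :
    PolyF (fun x => cst v (l x)) := by
  unfold cst
  fun_prop

theorem pw_pt (c : ℕ) {l : γ → Un} (hl : PolyF l) : PolyF (fun x => pw c (l x)) := by
  induction c with
  | zero => exact PolyF.const _
  | succ c ih =>
    show PolyF (fun x => (l x).flatMap fun _ => pw c (l x))
    refine PolyF.flatMap (f := fun x _ => pw c (l x)) ?_ hl
    exact ih.comp (PolyF.fst PolyF.id)

theorem kB_pt (c : ℕ) : PolyF (fun x : In => kB c x.1 x.2.1 x.2.2) := by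
  unfold kB mB
  exact pw_pt c (by fun_prop)

theorem plB_pt (c : ℕ) : PolyF (fun x : In => plB c x.1 x.2.1 x.2.2) := by
  have h := kB_pt (hC := hC) c
  unfold plB
  fun_prop

theorem prB_pt (c : ℕ) : PolyF (fun x : In => prB c x.1 x.2.1 x.2.2) := by
  have h := kB_pt (hC := hC) c
  unfold prB
  fun_prop

theorem rowsB_pt (c : ℕ) : PolyF (fun x : In => rowsB c x.1 x.2.1 x.2.2) := by
  have hK := kB_pt (hC := hC) c
  have hL := plB_pt (hC := hC) c
  have hR := prB_pt (hC := hC) c
  have h1 : PolyF (fun x : In => cst true (kB c x.1 x.2.1 x.2.2) ++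
      cst true (prB c x.1 x.2.1 x.2.2) ++ cst true x.2.1) :=
    (((cst_pt true hK).append (cst_pt true hR)).append (cst_pt true (by fun_prop)))
  have h2 : PolyF (fun x : In => cst true (kB c x.1 x.2.1 x.2.2) ++
      cst false (prB c x.1 x.2.1 x.2.2) ++ cst false x.2.1) :=
    (((cst_pt true hK).append (cst_pt false hR)).append (cst_pt false (by fun_prop)))
  have h3 : PolyF (fun x : In => cst true (kB c x.1 x.2.1 x.2.2) ++
      cst false (prB c x.1 x.2.1 x.2.2)) := (cst_pt true hK).append (cst_pt false hR)
  unfold rowsB
  refine PolyF.append (PolyF.map (f := fun (x : In) _ => _) ?_ hK)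
    (PolyF.append (PolyF.map (f := fun (x : In) _ => _) ?_ hL)
      (PolyF.map (f := fun (x : In) u => _) ?_ (by fun_prop)))
  · exact h1.comp (g := fun p : In × Bool => p.1) (by fun_prop)
  · exact h2.comp (g := fun p : In × Bool => p.1) (by fun_prop)
  · exact (h3.comp (g := fun p : In × List Bool => p.1) (by fun_prop)).append (by fun_prop)

theorem rowsC_pt : PolyF (fun x : In => rowsC x.2.1 x.2.2) := by
  have hM : PolyF (fun x : In => mC x.2.1 x.2.2) := by
    unfold mC
    fun_prop
  have h1 : PolyF (fun x : In => cst false (mC x.2.1 x.2.2) ++ cst true (mC x.2.1 x.2.2)) :=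
    (cst_pt false hM).append (cst_pt true hM)
  have h2 : PolyF (fun x : In => cst true (mC x.2.1 x.2.2) ++ cst false (mC x.2.1 x.2.2)) :=
    (cst_pt true hM).append (cst_pt false hM)
  have h3 : PolyF (fun x : In => cst true (mC x.2.1 x.2.2) ++ cst false (un x.2.2)) :=
    (cst_pt true hM).append (by fun_prop)
  unfold rowsC
  refine PolyF.append (PolyF.map (f := fun (x : In) _ => _) ?_ hM)
    (PolyF.append (PolyF.map (f := fun (x : In) _ => _) ?_ (by fun_prop))
      (PolyF.map (f := fun (x : In) u => _) ?_ (by fun_prop)))
  · exact h1.comp (g := fun p : In × Bool => p.1) (by fun_prop)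
  · exact h2.comp (g := fun p : In × Bool => p.1) (by fun_prop)
  · exact (h3.comp (g := fun p : In × List Bool => p.1) (by fun_prop)).append (by fun_prop)

/-! ### The maps on graphs -/

omit hC in
theorem rowsOf_length (G : Bip) : ∀ u ∈ rowsOf G, u.length = G.b := by
  intro u hu
  obtain ⟨i, _, rfl⟩ := List.mem_map.1 hu
  simp [rowOf]

/-- The first reduction. -/
def rhoB (c : ℕ) (x : Bip × ℕ) : Bip × ℕ :=
  (gB c (List.replicate x.2 true) (List.replicate x.1.b true) (rowsOf x.1),
    (plB c (List.replicate x.2 true) (List.replicate x.1.b true) (rowsOf x.1)).length +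
    (prB c (List.replicate x.2 true) (List.replicate x.1.b true) (rowsOf x.1)).length)

/-- The second reduction. -/
def rhoC (H : Bip) : Bip := gC (List.replicate H.b true) (rowsOf H)

omit hC in
theorem rowsOf_gB (c : ℕ) (T B : Un) (X : List (List Bool)) (hX : ∀ u ∈ X, u.length = B.length) :
    rowsOf (gB c T B X) = rowsB c T B X := by
  refine rowsOf_ofRows _ _ fun v hv => ?_
  obtain ⟨w, rfl, hw⟩ := mem_rowsB hX hv
  rw [List.length_append, cst_length, hw]
  ring

omit hC in
theorem rowsOf_gC (B : Un) (X : List (List Bool)) (hX : ∀ u ∈ X, u.length = B.length) :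
    rowsOf (gC B X) = rowsC B X :=
  rowsOf_ofRows _ _ fun _ hv => mem_rowsC hX hv

theorem tm_alg (r C : ℕ) :
    Nonempty (Turing.TM2ComputableInPolyTime encInput encNat (algG r C)) := by
  have h1 : PolyF (fun w : List Letter =>
      encNat (alg r C (parse w).1 (parse w).2.1 (parse w).2.2)) := by
    have h2 := (alg_pt (hC := hC) r C).comp (parse_pt (hC := hC))
    exact h2.bits
  refine tm_of_polyF h1 encInput encNat _ fun x => ?_
  rw [parse_encInput]
  rfl

theorem tm_rhoB (c : ℕ) :
    Nonempty (Turing.TM2ComputableInPolyTime encInput encInput (rhoB c)) := by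
  have h1 : PolyF (fun x : In =>
      ((plB c x.1 x.2.1 x.2.2 ++ prB c x.1 x.2.1 x.2.2).map (fun _ => Letter.one) ++
        [Letter.stop]) ++
      encRows (kB c x.1 x.2.1 x.2.2 ++ prB c x.1 x.2.1 x.2.2 ++ x.2.1)
        (rowsB c x.1 x.2.1 x.2.2)) := by
    have hK := kB_pt (hC := hC) c
    have hL := plB_pt (hC := hC) c
    have hR := prB_pt (hC := hC) c
    have hW := rowsB_pt (hC := hC) c
    fun_prop
  have h2 := h1.comp (parse_pt (hC := hC))
  refine tm_of_polyF h2 encInput encInput _ fun x => ?_
  rw [parse_encInput]
  simp only
  set T := List.replicate x.2 true with hT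
  set B := List.replicate x.1.b true with hB
  set X := rowsOf x.1 with hX
  have hX' : ∀ u ∈ X, u.length = B.length := by
    rw [hB, List.length_replicate]
    exact rowsOf_length x.1
  have e1 : encBip (gB c T B X) = encRows (kB c T B X ++ prB c T B X ++ B) (rowsB c T B X) := by
    rw [encBip_eq (gB c T B X) (kB c T B X ++ prB c T B X ++ B) (by
      rw [List.length_append, List.length_append]; rfl), rowsOf_gB c T B X hX']
  show _ = encUnary _ ++ encBip (gB c T B X)
  rw [e1, ← encUnary_eq, List.length_append]
  rfl

theorem tm_rhoC : Nonempty (Turing.TM2ComputableInPolyTime encBip encBip rhoC) := by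
  have h1 : PolyF (fun x : In =>
      encRows (mC x.2.1 x.2.2 ++ un x.2.2 ++ x.2.1) (rowsC x.2.1 x.2.2)) := by
    have hW := rowsC_pt (hC := hC)
    unfold mC
    fun_prop
  have h2 := h1.comp (parse_pt (hC := hC))
  refine tm_of_polyF h2 encBip encBip _ fun x => ?_
  rw [parse_encBip]
  simp only
  set B := List.replicate x.b true with hB
  set X := rowsOf x with hX
  have hX' : ∀ u ∈ X, u.length = B.length := by
    rw [hB, List.length_replicate]
    exact rowsOf_length x
  show _ = encBip (gC B X)
  rw [encBip_eq (gC B X) (mC B X ++ un X ++ B) (by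
      rw [List.length_append, List.length_append, un_length]; rfl), rowsOf_gC B X hX']

end

theorem statementA : StatementA := by
  have : Fact Core := ⟨core⟩
  intro r C _
  exact ⟨algG r C, tm_alg r C, fun G t hG => algG_spec r C G t hG⟩

theorem statementB : StatementB := by
  have : Fact Core := ⟨core⟩
  intro c _
  refine ⟨rhoB c, tm_rhoB c, fun H s => ?_⟩
  have hX' : ∀ u ∈ rowsOf H, u.length = (List.replicate H.b true).length := by
    rw [List.length_replicate]
    exact rowsOf_length H
  refine ⟨nearHalf_gB c _ _ _ hX', ?_⟩
  have h1 := count_gB c (List.replicate s true) (List.replicate H.b true) (rowsOf H) hX'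
  rw [List.length_replicate, List.length_replicate, ← count_eq] at h1
  exact h1

theorem statementC : StatementC := by
  have : Fact Core := ⟨core⟩
  refine ⟨rhoC, tm_rhoC, fun H => ⟨half_gC _ _, ?_⟩⟩
  have hX' : ∀ u ∈ rowsOf H, u.length = (List.replicate H.b true).length := by
    rw [List.length_replicate]
    exact rowsOf_length H
  have h1 := count_gC (List.replicate H.b true) (rowsOf H) hX'
  rw [List.length_replicate, ← count_eq] at h1
  have h2 : (rowsOf H).length = H.a := by simp [rowsOf]
  rw [h2] at h1
  exact h1

end Pool.Agent.BisTh
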