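import Pool.Agent.BisTh.Count

/-!
# The two reductions
-/

set_option autoImplicit false

namespace Pool.Agent.BisTh

/-! ### Counting lemmas -/

theorem cnt_replicate (u : List Bool) (X : List (List Bool)) : ∀ (k : ℕ) (Y : List ℕ),
    cnt (List.replicate k u ++ X) Y + cnt X (Y.filter (nadj u)) =
      cnt X Y + 2 ^ k * cnt X (Y.filter (nadj u))
  | 0, Y => by simp
  | k + 1, Y => by
    have h1 := cnt_replicate u X k Y
    have h2 := cnt_replicate u X k (Y.filter (nadj u))
    have h3 : (Y.filter (nadj u)).filter (nadj u) = Y.filter (nadj u) := by
      rw [List.filter_filter]; simp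
    rw [h3] at h2
    rw [List.replicate_succ, List.cons_append, cnt, pow_succ]
    linarith

theorem cnt_columns (X X' : List (List Bool)) : ∀ (J Y : List ℕ),
    (∀ j ∈ J, (X.filter fun u => nadj u j) = X') →
    cnt X (J ++ Y) + cnt X' Y = cnt X Y + 2 ^ J.length * cnt X' Y
  | [], Y, _ => by simp
  | j :: J, Y, h => by
    have h1 := cnt_columns X X' J Y fun x hx => h x (List.mem_cons_of_mem _ hx)
    have h0 := h j List.mem_cons_self
    have h4 : ∀ x ∈ J, (X'.filter fun u => nadj u x) = X' := by
      intro x hx
      have h5 := h x (List.mem_cons_of_mem _ hx)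
      rw [← h5, List.filter_filter]
      simp
    have h2 := cnt_columns X' X' J Y h4
    rw [List.cons_append, cnt_cons_right, h0, List.length_cons, pow_succ]
    linarith

theorem nadj_append_right (p u : List Bool) (j : ℕ) : nadj (p ++ u) (p.length + j) = nadj u j := by
  unfold nadj
  rw [List.getD_append_right _ _ _ _ (by omega)]
  simp

theorem nadj_append_left (p u : List Bool) (j : ℕ) (h : j < p.length) :
    nadj (p ++ u) j = nadj p j := by
  unfold nadj
  rw [List.getD_append _ _ _ _ h]

theorem cnt_shift (p : List Bool) : ∀ (X : List (List Bool)) (Y : List ℕ),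
    cnt (X.map fun u => p ++ u) (Y.map fun j => p.length + j) = cnt X Y
  | [], Y => by simp [cnt]
  | u :: X, Y => by
    have h : (Y.map fun j => p.length + j).filter (nadj (p ++ u)) =
        (Y.filter (nadj u)).map fun j => p.length + j := by
      rw [List.filter_map]
      congr 1
      refine List.filter_congr fun j _ => ?_
      exact nadj_append_right p u j
    rw [List.map_cons, cnt, h, cnt_shift p X Y, cnt_shift p X, cnt]

/-- A constant row. -/
def cst (v : Bool) (l : Un) : List Bool := l.map fun _ => v

theorem cst_length (v : Bool) (l : Un) : (cst v l).length = l.length := by simp [cst]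

theorem cst_append (v : Bool) (l m : Un) : cst v (l ++ m) = cst v l ++ cst v m := by simp [cst]

theorem nadj_cst (v : Bool) (l : Un) (j : ℕ) (h : j < l.length) : nadj (cst v l) j = !v := by
  unfold nadj cst
  rw [List.getD_eq_getElem _ _ (by simpa using h)]
  simp

/-! ### Graphs given by rows -/

/-- The graph with the given rows. -/
def ofRows (b : ℕ) (R : List (List Bool)) : Bip := ⟨R.length, b, fun i j => (R[i.val]).getD j.val false⟩

theorem rowsOf_ofRows (b : ℕ) (R : List (List Bool)) (h : ∀ u ∈ R, u.length = b) :
    rowsOf (ofRows b R) = R := by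
  refine List.ext_getElem (by simp [rowsOf, ofRows]) fun n h1 h2 => ?_
  have h3 := h R[n] (List.getElem_mem h2)
  refine List.ext_getElem (by simp [rowsOf, rowOf, ofRows, h3]) fun m h4 h5 => ?_
  simp only [rowsOf, rowOf, ofRows, List.getElem_map, List.getElem_finRange]
  rw [List.getD_eq_getElem _ _ (by simpa using h5)]
  simp

theorem count_ofRows (b : ℕ) (R : List (List Bool)) (h : ∀ u ∈ R, u.length = b) :
    (ofRows b R).count = cnt R (List.range b) := by
  rw [count_eq, rowsOf_ofRows b R h]
  rfl

theorem le_degL (G : Bip) (i : Fin G.a) (J : Finset (Fin G.b)) (h : ∀ j ∈ J, G.adj i j = true) :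
    J.card ≤ G.degL i := by
  refine Finset.card_le_card fun j hj => ?_
  simp only [Bip.nbR, Finset.mem_filter, Finset.mem_univ, true_and]
  exact ⟨i, Finset.mem_singleton_self i, h j hj⟩

theorem le_degR (G : Bip) (j : Fin G.b) (I : Finset (Fin G.a)) (h : ∀ i ∈ I, G.adj i j = true) :
    I.card ≤ G.degR j := by
  refine Finset.card_le_card fun i hi => ?_
  simp only [Bip.nbL, Finset.mem_filter, Finset.mem_univ, true_and]
  exact ⟨j, Finset.mem_singleton_self j, h i hi⟩

theorem card_lt (n k : ℕ) (h : k ≤ n) :
    (Finset.univ.filter fun j : Fin n => j.val < k).card = k := by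
  have : (Finset.univ.filter fun j : Fin n => j.val < k) =
      (Finset.range k).attachFin (fun m hm => lt_of_lt_of_le (Finset.mem_range.1 hm) h) := by
    ext j
    simp [Finset.mem_attachFin]
  rw [this, Finset.card_attachFin, Finset.card_range]

theorem card_ge (n k m : ℕ) (h : k + m ≤ n) :
    m ≤ (Finset.univ.filter fun j : Fin n => k ≤ j.val).card := by
  have h1 := card_lt n k (by omega)
  have h2 := Finset.card_filter_add_card_filter_not (s := (Finset.univ : Finset (Fin n)))
    (fun j : Fin n => j.val < k)
  simp only [not_lt, Finset.card_univ, Fintype.card_fin] at h2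
  omega

/-! ### First reduction -/

/-- A unary power. -/
def pw : ℕ → Un → Un
  | 0, _ => [true]
  | c + 1, l => l.flatMap fun _ => pw c l

theorem pw_length (c : ℕ) (l : Un) : (pw c l).length = l.length ^ c := by
  induction c with
  | zero => rfl
  | succ c ih =>
    have : ∀ m : Un, (m.flatMap fun _ => pw c l).length = m.length * l.length ^ c := by
      intro m
      induction m with
      | nil => simp
      | cons x m ihm => rw [List.flatMap_cons, List.length_append, ihm, ih, List.length_cons]; ring
    rw [pw, this, pow_succ]
    ring

/-- The parameters of the first reduction. -/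
def mB (T B : Un) (X : List (List Bool)) : Un := T ++ B ++ un X ++ [true]

/-- Number of universal vertices. -/
def kB (c : ℕ) (T B : Un) (X : List (List Bool)) : Un := pw c (mB T B X)

/-- Isolated left vertices. -/
def plB (c : ℕ) (T B : Un) (X : List (List Bool)) : Un := kB c T B X ++ B ++ T ++ [true]

/-- Isolated right vertices. -/
def prB (c : ℕ) (T B : Un) (X : List (List Bool)) : Un := kB c T B X ++ un X ++ T ++ [true]

/-- The rows of the first reduction. -/
def rowsB (c : ℕ) (T B : Un) (X : List (List Bool)) : List (List Bool) :=
  (kB c T B X).map (fun _ => cst true (kB c T B X) ++ cst true (prB c T B X) ++ cst true B) ++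
  ((plB c T B X).map (fun _ => cst true (kB c T B X) ++ cst false (prB c T B X) ++ cst false B) ++
  X.map (fun u => cst true (kB c T B X) ++ cst false (prB c T B X) ++ u))

theorem map_const_eq {α : Type} (l : Un) (x : α) :
    l.map (fun _ => x) = List.replicate l.length x := by
  induction l with
  | nil => rfl
  | cons a l ih => rw [List.map_cons, ih, List.length_cons, List.replicate_succ]

theorem range_three (k p b : ℕ) : List.range (k + p + b) =
    List.range k ++ ((List.range p).map (fun j => k + j) ++
      (List.range b).map (fun j => k + p + j)) := by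
  rw [List.range_add, List.range_add, List.append_assoc]

theorem cnt_rowsB (c : ℕ) (T B : Un) (X : List (List Bool)) :
    cnt (rowsB c T B X) (List.range ((kB c T B X).length + (prB c T B X).length + B.length)) +
      2 * 2 ^ ((prB c T B X).length + B.length) =
    2 ^ ((plB c T B X).length + (prB c T B X).length) * cnt X (List.range B.length) +
      2 * 2 ^ ((kB c T B X).length + ((prB c T B X).length + B.length)) := by
  set K := kB c T B X with hK
  set PL := plB c T B X with hPL
  set PR := prB c T B X with hPR
  have hsides : PL.length + X.length = PR.length + B.length := by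
    rw [hPL, hPR]
    simp only [plB, prB, List.length_append, un_length, List.length_singleton]
    omega
  set full := cst true K ++ cst true PR ++ cst true B with hfull
  set iso := cst true K ++ cst false PR ++ cst false B with hiso
  set pre := cst true K ++ cst false PR with hpre
  have hprelen : pre.length = K.length + PR.length := by
    rw [hpre, List.length_append, cst_length, cst_length]
  have hrows : rowsB c T B X = List.replicate K.length full ++
      (List.replicate PL.length iso ++ X.map fun u => pre ++ u) := by
    unfold rowsB
    rw [map_const_eq, map_const_eq]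
  set Z := List.replicate PL.length iso ++ X.map fun u => pre ++ u with hZ
  have hZlen : Z.length = PR.length + B.length := by
    rw [hZ, List.length_append, List.length_replicate, List.length_map, hsides]
  have hY := range_three K.length PR.length B.length
  set Y1 := List.range K.length with hY1
  set Y2 := (List.range PR.length).map (fun j => K.length + j) with hY2
  set Y3 := (List.range B.length).map (fun j => K.length + PR.length + j) with hY3
  -- universal rows
  have e1 : (List.range (K.length + PR.length + B.length)).filter (nadj full) = [] := by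
    rw [List.filter_eq_nil_iff]
    intro j hj
    rw [List.mem_range] at hj
    have hf : full = cst true (K ++ PR ++ B) := by rw [cst_append, cst_append]
    rw [hf, nadj_cst _ _ _ (by rw [List.length_append, List.length_append]; exact hj)]
    simp
  have a1 := cnt_replicate full Z K.length (List.range (K.length + PR.length + B.length))
  rw [e1, cnt_nil_right, hZlen] at a1
  -- universal columns
  have e2 : ∀ j ∈ Y1, (Z.filter fun u => nadj u j) = [] := by
    intro j hj
    rw [hY1, List.mem_range] at hj
    rw [List.filter_eq_nil_iff]
    intro u hu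
    have hu' : ∃ v, u = cst true K ++ v := by
      rw [hZ, List.mem_append] at hu
      rcases hu with hu | hu
      · exact ⟨cst false PR ++ cst false B, by
          rw [List.eq_of_mem_replicate hu, hiso, List.append_assoc]⟩
      · obtain ⟨v, _, rfl⟩ := List.mem_map.1 hu
        exact ⟨cst false PR ++ v, by rw [hpre, List.append_assoc]⟩
    obtain ⟨v, rfl⟩ := hu'
    rw [nadj_append_left _ _ _ (by rw [cst_length]; exact hj), nadj_cst _ _ _ hj]
    simp
  have a2 := cnt_columns Z [] Y1 (Y2 ++ Y3) e2
  have hY1len : Y1.length = K.length := by simp [hY1]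
  have hY23len : (Y2 ++ Y3).length = PR.length + B.length := by simp [hY2, hY3]
  rw [cnt, hY1len, hY23len] at a2
  -- isolated rows
  have e3 : (Y2 ++ Y3).filter (nadj iso) = Y2 ++ Y3 := by
    rw [List.filter_eq_self]
    intro j hj
    have hj' : ∃ m, m < PR.length + B.length ∧ j = (cst true K).length + m := by
      rw [cst_length]
      rw [List.mem_append] at hj
      rcases hj with hj | hj
      · obtain ⟨m, hm, rfl⟩ := List.mem_map.1 hj
        rw [List.mem_range] at hm
        exact ⟨m, by omega, rfl⟩
      · obtain ⟨m, hm, rfl⟩ := List.mem_map.1 hj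
        rw [List.mem_range] at hm
        exact ⟨PR.length + m, by omega, by omega⟩
    obtain ⟨m, hm, rfl⟩ := hj'
    have hf : iso = cst true K ++ cst false (PR ++ B) := by
      rw [hiso, hpre, cst_append, List.append_assoc]
    rw [hf, nadj_append_right, nadj_cst _ _ _ (by simpa using hm)]
    rfl
  have a3 := cnt_replicate iso (X.map fun u => pre ++ u) PL.length (Y2 ++ Y3)
  rw [e3] at a3
  -- isolated columns
  have e4 : ∀ j ∈ Y2, ((X.map fun u => pre ++ u).filter fun u => nadj u j) =
      X.map fun u => pre ++ u := by
    intro j hj
    obtain ⟨m, hm, rfl⟩ := List.mem_map.1 hj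
    rw [List.mem_range] at hm
    rw [List.filter_eq_self]
    intro u hu
    obtain ⟨v, _, rfl⟩ := List.mem_map.1 hu
    rw [nadj_append_left _ _ _ (by rw [hprelen]; omega), hpre]
    have := nadj_append_right (cst true K) (cst false PR) m
    rw [cst_length] at this
    rw [this, nadj_cst _ _ _ hm]
    rfl
  have a4 := cnt_columns (X.map fun u => pre ++ u) _ Y2 Y3 e4
  have hY2len : Y2.length = PR.length := by simp [hY2]
  have a5 := cnt_shift pre X (List.range B.length)
  rw [hprelen] at a5
  rw [hY2len, a5] at a4
  rw [hrows, hY]
  rw [hY] at a1
  rw [← hZ] at a3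
  set q := cnt X (List.range B.length) with hq
  have b4 : cnt (X.map fun u => pre ++ u) (Y2 ++ Y3) = 2 ^ PR.length * q := by omega
  have b3 : cnt Z (Y2 ++ Y3) = 2 ^ PL.length * 2 ^ PR.length * q := by
    rw [b4] at a3
    rw [mul_assoc]
    omega
  rw [pow_add 2 PL.length PR.length, pow_add 2 K.length (PR.length + B.length)]
  rw [b3] at a2
  linarith

end Pool.Agent.BisTh
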